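import Pool.Agent.Q130.AL.Step

/-!
# Asymptotically linear maps: stages, and the theorem for compact manifolds
-/

set_option autoImplicit false

open Set Filter Topology Metric Function MeasureTheory
open scoped Manifold ContDiff

noncomputable section

namespace Pool.Agent.Q130.AL

open Pool.Agent.Y522 Pool.Agent.Y66.CM

/-- small boxes -/
theorem box_exists {n : ℕ} {X : Type} [TopologicalSpace X] [ChartedSpace (E n) X]
    [IsManifold (𝓡 n) ∞ X] {x : X} {W : Set X} (hW : IsOpen W) (hxW : x ∈ W) :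
    ∃ B : E n → X, B 0 = x ∧ InjOn B (closedBall 0 2) ∧
      (∀ z ∈ closedBall (0 : E n) 2, LD n B z) ∧ ∀ z ∈ closedBall (0 : E n) 2, B z ∈ W := by
  obtain ⟨A, hA0, hA⟩ := exists_param (n := n) x
  obtain ⟨u, hu, hinj⟩ := hA.eventually_injOn
  have hAW : A ⁻¹' W ∈ 𝓝 (0 : E n) :=
    hA.continuousAt.preimage_mem_nhds (hW.mem_nhds (by rwa [hA0]))
  obtain ⟨ρ, hρ, hball⟩ := (nhds_basis_closedBall (x := (0 : E n))).mem_iff.mp
    (Filter.inter_mem (Filter.inter_mem hu hA.eventually) hAW)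
  have hmem : ∀ z ∈ closedBall (0 : E n) 2, (ρ / 2) • z ∈ closedBall (0 : E n) ρ := by
    intro z hz
    rw [mem_closedBall_zero_iff] at hz ⊢
    rw [norm_smul, Real.norm_eq_abs, abs_of_pos (by linarith)]
    calc ρ / 2 * ‖z‖ ≤ ρ / 2 * 2 := mul_le_mul_of_nonneg_left hz (by linarith)
      _ = ρ := by ring
  refine ⟨fun z => A ((ρ / 2) • z), by simp [hA0], ?_, ?_, ?_⟩
  · intro a ha b hb hab
    have h1 := hinj (hball (hmem a ha)).1.1 (hball (hmem b hb)).1.1 hab
    have h2 : (ρ / 2 : ℝ) ≠ 0 := by linarith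
    exact smul_right_injective _ h2 h1
  · intro z hz
    have h2 : (ρ / 2 : ℝ) ≠ 0 := by linarith
    have h3 : LD n (fun y : E n => (ρ / 2) • y) z :=
      LD_linear (ContinuousLinearEquiv.smulLeft (Units.mk0 (ρ / 2) h2)) z
    have h4 : LD n A ((ρ / 2) • z) := (hball (hmem z hz)).1.2
    exact LD.comp_fun (g := A) (f := fun y : E n => (ρ / 2) • y) h4 h3
  · intro z hz
    exact (hball (hmem z hz)).2

/-- smoothing near a compact set -/
theorem alphase (n : ℕ) (X : Type) [TopologicalSpace X] [T2Space X] [ChartedSpace (E n) X]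
    [IsManifold (𝓡 n) ∞ X] (F : X → E n) (W : Set X) (K : Set X)
    (hW : IsOpen W) (hF : ContinuousOn F W) (hx : ∀ x ∈ W, ALE n F x)
    (hK : IsCompact K) (hKW : K ⊆ W) :
    ∃ C : Set X, IsCompact C ∧ C ⊆ W ∧ ∀ e : ℝ, 0 < e → ∃ F' : X → E n,
      ContinuousOn F' W ∧ (∀ p, p ∉ C → F' p = F p) ∧ (∀ p, ‖F' p - F p‖ ≤ e) ∧
      (∀ x, LD n F x → LD n F' x) ∧ (∀ x ∈ K, LD n F' x) ∧
      ∀ x ∈ W, ALE n F' x := by
  classical
  have h1 : ∀ x : X, ∃ B : E n → X, x ∈ K → B 0 = x ∧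
      InjOn B (closedBall 0 2) ∧ (∀ z ∈ closedBall (0 : E n) 2, LD n B z) ∧
      ∀ z ∈ closedBall (0 : E n) 2, B z ∈ W := by
    intro x
    by_cases hxK : x ∈ K
    · obtain ⟨B, hB⟩ := box_exists (n := n) hW (hKW hxK)
      exact ⟨B, fun _ => hB⟩
    · exact ⟨fun _ => x, fun h => absurd h hxK⟩
  choose B hB using h1
  obtain ⟨t, htK, ht⟩ := hK.elim_nhds_subcover (fun x => B x '' ball 0 (1 / 2)) (by
    intro x hxK
    have h2 : LD n (B x) 0 := (hB x hxK).2.2.1 0 (by simp)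
    have h3 := h2.image_mem_nhds (ball_mem_nhds (0 : E n) (by norm_num : (0 : ℝ) < 1 / 2))
    rwa [(hB x hxK).1] at h3)
  have hcp : ∀ x ∈ t, IsCompact (B x '' closedBall (0 : E n) 1) := by
    intro x hxt
    apply (isCompact_closedBall (0 : E n) 1).image_of_continuousOn
    intro z hz
    exact ((hB x (htK x hxt)).2.2.1 z
      (closedBall_subset_closedBall (by norm_num) hz)).continuousAt.continuousWithinAt
  refine ⟨⋃ x ∈ t, B x '' closedBall (0 : E n) 1, t.finite_toSet.isCompact_biUnion hcp, ?_, ?_⟩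
  · refine iUnion₂_subset fun x hxt => ?_
    rintro _ ⟨z, hz, rfl⟩
    exact (hB x (htK x hxt)).2.2.2 z (closedBall_subset_closedBall (by norm_num) hz)
  intro e he
  have hN1 : (0 : ℝ) < t.card + 1 := by positivity
  have key : ∀ s : Finset X, s ⊆ t → ∃ F' : X → E n, ContinuousOn F' W ∧
      (∀ p, (∀ x ∈ t, p ∉ B x '' closedBall 0 1) → F' p = F p) ∧
      (∀ p, ‖F' p - F p‖ ≤ s.card * (e / (t.card + 1))) ∧ (∀ p, LD n F p → LD n F' p) ∧
      (∀ x ∈ s, ∀ z, ‖z‖ ≤ 1 / 2 → LD n F' (B x z)) ∧ ∀ x ∈ W, ALE n F' x := by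
    intro s
    induction s using Finset.induction_on with
    | empty =>
      intro _
      exact ⟨F, hF, fun _ _ => rfl, fun _ => by simp, fun _ h => h,
        fun x hx => absurd hx (Finset.notMem_empty x), hx⟩
    | insert a s ha ih =>
      intro hst
      obtain ⟨F', h2, h3, h4, h5, h6, h7⟩ := ih ((Finset.subset_insert a s).trans hst)
      have hat : a ∈ t := hst (Finset.mem_insert_self a s)
      obtain ⟨F'', g1, g2, g3, g4, g5, g6⟩ := alstep n X F' W (B a) (e / (t.card + 1)) hW h2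
        (hB a (htK a hat)).2.1 (hB a (htK a hat)).2.2.1 (hB a (htK a hat)).2.2.2 h7
        (by positivity)
      refine ⟨F'', g1, ?_, ?_, fun p hp => g4 p (h5 p hp), ?_, g6⟩
      · intro p hp
        rw [g2 p (hp a hat), h3 p hp]
      · intro p
        have h8 : F'' p - F p = (F'' p - F' p) + (F' p - F p) := by abel
        rw [h8, Finset.card_insert_of_notMem ha]
        refine (norm_add_le _ _).trans ?_
        have := g3 p
        have := h4 p
        push_cast
        linarith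
      · intro x hx z hz
        rcases Finset.mem_insert.1 hx with h10 | h10
        · rw [h10]
          exact g5 z hz
        · exact g4 _ (h6 x h10 z hz)
  obtain ⟨F', h2, h3, h4, h5, h6, h7⟩ := key t (Finset.Subset.refl t)
  refine ⟨F', h2, fun p hp => h3 p fun x hxt h => hp (mem_iUnion₂.2 ⟨x, hxt, h⟩), fun p => ?_, h5,
    fun x hxK => ?_, h7⟩
  · refine (h4 p).trans ?_
    calc (t.card : ℝ) * (e / (t.card + 1)) ≤ (t.card + 1) * (e / (t.card + 1)) := by
          apply mul_le_mul_of_nonneg_right (by linarith)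
          positivity
      _ = e := by field_simp
  · obtain ⟨y, hyt, z, hz, rfl⟩ := mem_iUnion₂.1 (ht hxK)
    rw [mem_ball_zero_iff] at hz
    exact h6 y hyt z hz.le

theorem alstage (n : ℕ) (X Y : Type) [TopologicalSpace X] [T2Space X] [ChartedSpace (E n) X]
    [IsManifold (𝓡 n) ∞ X] [TopologicalSpace Y] [T2Space Y] [ChartedSpace (E n) Y]
    [IsManifold (𝓡 n) ∞ Y] (f₀ : C(X, Y)) (D : Set X) (V : Set Y) (B : Y → E n)
    (O : Set (X × Y)) (N : Set X) (hx : ∀ x, ALm n f₀ x) (hD : IsCompact D) (hV : IsOpen V)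
    (hBi : InjOn B V) (hBd : ∀ y ∈ V, LD n B y) (hDV : ∀ x ∈ D, f₀ x ∈ V) (hN : IsOpen N)
    (hDN : D ⊆ N) (hO : IsOpen O) (hfO : ∀ x, (x, f₀ x) ∈ O) :
    ∃ f' : C(X, Y), (∀ x, ALm n f' x) ∧ HomIn O f₀ f' ∧
      (∀ x, LD n f₀ x → LD n f' x) ∧ (∀ x ∈ D, LD n f' x) ∧ ∀ x, x ∉ N → f' x = f₀ x := by
  classical
  rcases isEmpty_or_nonempty Y with hY | hY
  · have hX : IsEmpty X := ⟨fun x => hY.elim (f₀ x)⟩
    exact ⟨f₀, hx, HomIn.refl hfO, fun _ h => h, fun x => hX.elim x, fun x => hX.elim x⟩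
  obtain ⟨f, hff⟩ : ∃ f : X → Y, f = f₀ := ⟨_, rfl⟩
  have hf : Continuous f := by rw [hff]; exact f₀.continuous
  rw [← hff] at hx hDV hfO
  obtain ⟨W, hWd⟩ : ∃ W : Set X, W = f ⁻¹' V ∩ N := ⟨_, rfl⟩
  have hmW' : ∀ x, x ∈ W ↔ f x ∈ V ∧ x ∈ N := fun x => by rw [hWd]; rfl
  have hmW : ∀ x, x ∈ W → f x ∈ V := fun x h => ((hmW' x).1 h).1
  have hWo : IsOpen W := by rw [hWd]; exact (hV.preimage hf).inter hN
  obtain ⟨F, hFd⟩ : ∃ F : X → E n, F = fun x => B (f x) := ⟨_, rfl⟩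
  have hFx : ∀ x, F x = B (f x) := fun x => by rw [hFd]
  have hFca : ∀ x ∈ W, ContinuousAt F x := by
    intro x hxW
    rw [hFd]
    exact ContinuousAt.comp (hBd _ (hmW x hxW)).continuousAt hf.continuousAt
  obtain ⟨β, hβd⟩ : ∃ β : E n → Y, β = invFunOn B V := ⟨_, rfl⟩
  have hβ : ∀ y ∈ V, β (B y) = y := by
    intro y hy
    rw [hβd]
    exact hBi.leftInvOn_invFunOn hy
  have hβL : ∀ y ∈ V, LD n β (B y) := fun y hy => LD.inverse hV hBd hβ hy
  have hU : IsOpen (B '' V) := isOpen_image_of_LD hV hBd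
  obtain ⟨C, hC, hCW, hPh⟩ := alphase n X F W D hWo
    (fun x hxW => (hFca x hxW).continuousWithinAt)
    (by
      intro x hxW
      obtain ⟨B1, hB1, h1⟩ := hx x
      rw [hFd]
      exact ALE.change hf.continuousAt hB1 (hBd _ (hmW x hxW)) h1)
    hD (fun x hxD => (hmW' x).2 ⟨hDV x hxD, hDN hxD⟩)
  -- the margin
  have hG : ∀ x ∈ C, ∀ᶠ q : X × E n in 𝓝 (x, F x), q.2 ∈ B '' V ∧ (q.1, β q.2) ∈ O := by
    intro x hxC
    have hxV := hmW x (hCW hxC)
    have h1 : ∀ᶠ q : X × E n in 𝓝 (x, F x), q.2 ∈ B '' V :=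
      continuousAt_snd.eventually (hU.mem_nhds (by rw [hFx]; exact ⟨f x, hxV, rfl⟩))
    have h2 : ContinuousAt (fun q : X × E n => (q.1, β q.2)) (x, F x) := by
      refine ContinuousAt.prodMk continuousAt_fst ?_
      refine ContinuousAt.comp (g := β) ?_ continuousAt_snd
      change ContinuousAt β (F x)
      rw [hFx]
      exact (hβL _ hxV).continuousAt
    have h3 : (x, β (F x)) ∈ O := by
      rw [hFx, hβ _ hxV]
      exact hfO x
    exact h1.and (h2.eventually (hO.mem_nhds h3))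
  have hmar : ∃ e : ℝ, 0 < e ∧ ∀ x ∈ C, ∀ w : E n, ‖w - F x‖ ≤ e → w ∈ B '' V ∧ (x, β w) ∈ O := by
    refine hC.induction_on (p := fun s => ∃ e : ℝ, 0 < e ∧ ∀ x ∈ s, ∀ w : E n, ‖w - F x‖ ≤ e →
      w ∈ B '' V ∧ (x, β w) ∈ O) ?_ ?_ ?_ ?_
    · exact ⟨1, one_pos, fun x hx => absurd hx (notMem_empty x)⟩
    · rintro s t hst ⟨e, he, h⟩
      exact ⟨e, he, fun x hx => h x (hst hx)⟩
    · rintro s t ⟨e, he, h⟩ ⟨e', he', h'⟩
      refine ⟨min e e', lt_min he he', fun x hx w hw => ?_⟩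
      rcases hx with hx | hx
      · exact h x hx w (hw.trans (min_le_left _ _))
      · exact h' x hx w (hw.trans (min_le_right _ _))
    · intro x hxC
      have h1 := hG x hxC
      rw [nhds_prod_eq] at h1
      obtain ⟨P1, hP1, P2, hP2, hP⟩ := eventually_prod_iff.1 h1
      obtain ⟨e, he, h2⟩ := Metric.eventually_nhds_iff_ball.1 hP2
      have h3 : ∀ᶠ x' in 𝓝 x, P1 x' ∧ F x' ∈ ball (F x) (e / 2) :=
        hP1.and ((hFca x (hCW hxC)).eventually (ball_mem_nhds _ (by linarith)))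
      refine ⟨{x' | P1 x' ∧ F x' ∈ ball (F x) (e / 2)}, mem_nhdsWithin_of_mem_nhds h3, e / 3,
        by linarith, ?_⟩
      rintro x' ⟨h4, h5⟩ w hw
      refine hP h4 (h2 w ?_)
      rw [mem_ball, dist_eq_norm] at h5 ⊢
      have h6 : w - F x = (w - F x') + (F x' - F x) := by abel
      rw [h6]
      refine (norm_add_le _ _).trans_lt ?_
      linarith
  obtain ⟨e, he, hmar⟩ := hmar
  obtain ⟨F', hF'c, hF'C, hF'e, hF'L, hF'D, hF'm⟩ := hPh e he
  obtain ⟨f', hf'd⟩ : ∃ f' : X → Y, f' = fun x => if x ∈ C then β (F' x) else f x := ⟨_, rfl⟩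
  have h'C : ∀ x, x ∉ C → f' x = f x := fun x hx => by rw [hf'd]; exact if_neg hx
  have h'C' : ∀ x, x ∈ C → f' x = β (F' x) := fun x hx => by rw [hf'd]; exact if_pos hx
  have hF'V : ∀ x ∈ W, ∃ y ∈ V, F' x = B y ∧ f' x = y := by
    intro x hxW
    by_cases hxC : x ∈ C
    · obtain ⟨⟨y, hy, hyF⟩, -⟩ := hmar x hxC (F' x) (hF'e x)
      refine ⟨y, hy, hyF.symm, ?_⟩
      rw [h'C' x hxC, ← hyF, hβ y hy]
    · exact ⟨f x, hmW x hxW, by rw [hF'C x hxC, hFx], h'C x hxC⟩
  have hF'B : ∀ x ∈ W, B (f' x) = F' x := by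
    intro x hxW
    obtain ⟨y, hy, h1, h2⟩ := hF'V x hxW
    rw [h2, h1]
  have hF'β : ∀ x ∈ W, f' x = β (F' x) := by
    intro x hxW
    obtain ⟨y, hy, h1, h2⟩ := hF'V x hxW
    rw [h2, h1, hβ y hy]
  have hf'V : ∀ x ∈ W, f' x ∈ V := by
    intro x hxW
    obtain ⟨y, hy, h1, h2⟩ := hF'V x hxW
    rw [h2]
    exact hy
  have hβF : ∀ x ∈ W, LD n β (F' x) := by
    intro x hxW
    rw [← hF'B x hxW]
    exact hβL _ (hf'V x hxW)
  have hevW : ∀ x ∈ W, f' =ᶠ[𝓝 x] fun y => β (F' y) := by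
    intro x hxW
    filter_upwards [hWo.mem_nhds hxW] with y hy
    exact hF'β y hy
  have hevC : ∀ x, x ∉ C → f' =ᶠ[𝓝 x] f := by
    intro x hxC
    filter_upwards [hC.isClosed.isOpen_compl.mem_nhds hxC] with y hy
    exact h'C y hy
  have hLW : ∀ x ∈ W, LD n F' x → LD n f' x := fun x hxW h =>
    LD.congr (LD.comp_fun (hβF x hxW) h) (hevW x hxW)
  have hnC : ∀ x, x ∉ W → x ∉ C := fun x hxW hxC => hxW (hCW hxC)
  have hmid : ∀ (s : unitInterval) (x : X), ‖(F x + (s : ℝ) • (F' x - F x)) - F x‖ ≤ e := by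
    intro s x
    rw [add_sub_cancel_left, norm_smul, Real.norm_eq_abs, abs_of_nonneg s.2.1]
    calc (s : ℝ) * ‖F' x - F x‖ ≤ 1 * ‖F' x - F x‖ :=
          mul_le_mul_of_nonneg_right s.2.2 (norm_nonneg _)
      _ ≤ e := by rw [one_mul]; exact hF'e x
  obtain ⟨H, hHd⟩ : ∃ H : unitInterval × X → Y, H = fun q =>
      if q.2 ∈ C then β (F q.2 + (q.1 : ℝ) • (F' q.2 - F q.2)) else f q.2 := ⟨_, rfl⟩
  have hHC : ∀ q : unitInterval × X, q.2 ∈ C →
      H q = β (F q.2 + (q.1 : ℝ) • (F' q.2 - F q.2)) := fun q hq => by rw [hHd]; exact if_pos hq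
  have hHn : ∀ q : unitInterval × X, q.2 ∉ C → H q = f q.2 :=
    fun q hq => by rw [hHd]; exact if_neg hq
  have hHW : ∀ q : unitInterval × X, q.2 ∈ W →
      H q = β (F q.2 + (q.1 : ℝ) • (F' q.2 - F q.2)) := by
    intro q hq
    by_cases hqC : q.2 ∈ C
    · exact hHC q hqC
    · rw [hHn q hqC, hF'C q.2 hqC, sub_self, smul_zero, add_zero, hFx, hβ _ (hmW _ hq)]
  have hHV : ∀ q : unitInterval × X, q.2 ∈ W →
      F q.2 + (q.1 : ℝ) • (F' q.2 - F q.2) ∈ B '' V := by
    intro q hq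
    by_cases hqC : q.2 ∈ C
    · exact (hmar q.2 hqC _ (hmid q.1 q.2)).1
    · rw [hF'C q.2 hqC, sub_self, smul_zero, add_zero, hFx]
      exact ⟨f q.2, hmW _ hq, rfl⟩
  have hHc : Continuous H := by
    rw [continuous_iff_continuousAt]
    rintro ⟨s, x⟩
    by_cases hxW : x ∈ W
    · have h1 : H =ᶠ[𝓝 (s, x)] fun q => β (F q.2 + (q.1 : ℝ) • (F' q.2 - F q.2)) := by
        filter_upwards [(hWo.preimage continuous_snd).mem_nhds
          (show (s, x) ∈ Prod.snd ⁻¹' W from hxW)] with q hq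
        exact hHW q hq
      rw [continuousAt_congr h1]
      obtain ⟨y, hy, hyF⟩ := hHV (s, x) hxW
      have h2 : ContinuousAt β (F x + (s : ℝ) • (F' x - F x)) := by
        change B y = F x + (s : ℝ) • (F' x - F x) at hyF
        rw [← hyF]
        exact (hβL y hy).continuousAt
      have h3 : ContinuousAt (fun q : unitInterval × X => F q.2) (s, x) :=
        ContinuousAt.comp (g := F) (hFca x hxW) continuousAt_snd
      have h4 : ContinuousAt (fun q : unitInterval × X => F' q.2) (s, x) :=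
        ContinuousAt.comp (g := F') (hF'c.continuousAt (hWo.mem_nhds hxW)) continuousAt_snd
      have h5 : ContinuousAt (fun q : unitInterval × X => (q.1 : ℝ)) (s, x) :=
        (continuous_subtype_val.comp continuous_fst).continuousAt
      exact ContinuousAt.comp (g := β)
        (f := fun q : unitInterval × X => F q.2 + (q.1 : ℝ) • (F' q.2 - F q.2)) h2
        (h3.add (h5.smul (h4.sub h3)))
    · have h1 : H =ᶠ[𝓝 (s, x)] fun q => f q.2 := by
        filter_upwards [(hC.isClosed.isOpen_compl.preimage continuous_snd).mem_nhds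
          (show (s, x) ∈ Prod.snd ⁻¹' Cᶜ from hnC x hxW)] with q hq
        exact hHn q hq
      rw [continuousAt_congr h1]
      exact (hf.comp continuous_snd).continuousAt
  have hf'c : Continuous f' := by
    rw [continuous_iff_continuousAt]
    intro x
    by_cases hxW : x ∈ W
    · rw [continuousAt_congr (hevW x hxW)]
      exact ContinuousAt.comp (g := β) (hβF x hxW).continuousAt
        (hF'c.continuousAt (hWo.mem_nhds hxW))
    · rw [continuousAt_congr (hevC x (hnC x hxW))]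
      exact hf.continuousAt
  refine ⟨⟨f', hf'c⟩, ?_, ?_, ?_, ?_, ?_⟩
  · intro x
    change ALm n f' x
    by_cases hxW : x ∈ W
    · refine ⟨B, hBd _ (hf'V x hxW), ALE.congr (hF'm x hxW) ?_⟩
      filter_upwards [hWo.mem_nhds hxW] with y hy
      exact hF'B y hy
    · exact ALm.congr (hx x) (hevC x (hnC x hxW))
  · refine HomIn.of_fun H hHc (fun x => ?_) (fun x => ?_) (fun s x => ?_)
    · rw [← hff]
      by_cases hxC : x ∈ C
      · rw [hHC (0, x) hxC]
        change β (F x + (((0 : unitInterval) : ℝ)) • (F' x - F x)) = f x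
        have e0 : ((0 : unitInterval) : ℝ) = 0 := rfl
        rw [e0, zero_smul, add_zero, hFx, hβ _ (hmW x (hCW hxC))]
      · exact hHn (0, x) hxC
    · change H (1, x) = f' x
      by_cases hxC : x ∈ C
      · rw [hHC (1, x) hxC, h'C' x hxC]
        change β (F x + (((1 : unitInterval) : ℝ)) • (F' x - F x)) = β (F' x)
        have e1 : ((1 : unitInterval) : ℝ) = 1 := rfl
        rw [e1, one_smul, add_sub_cancel]
      · rw [hHn (1, x) hxC, h'C x hxC]
    · by_cases hxC : x ∈ C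
      · rw [hHC (s, x) hxC]
        exact (hmar x hxC _ (hmid s x)).2
      · rw [hHn (s, x) hxC]
        exact hfO x
  · intro x h1
    change LD n f' x
    rw [← hff] at h1
    by_cases hxW : x ∈ W
    · apply hLW x hxW
      apply hF'L
      rw [hFd]
      exact LD.comp_fun (hBd _ (hmW x hxW)) h1
    · exact LD.congr h1 (hevC x (hnC x hxW))
  · intro x hxD
    exact hLW x ((hmW' x).2 ⟨hDV x hxD, hDN hxD⟩) (hF'D x hxD)
  · intro x hxN
    change f' x = f₀ x
    rw [← hff]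
    exact h'C x (hnC x fun h => hxN ((hmW' x).1 h).2)

/-- **Asymptotically linear maps of compact manifolds are limits of local diffeomorphisms.** -/
theorem alall (n : ℕ) (X Y : Type) [TopologicalSpace X] [T2Space X] [CompactSpace X]
    [ChartedSpace (E n) X] [IsManifold (𝓡 n) ∞ X] [TopologicalSpace Y] [T2Space Y]
    [ChartedSpace (E n) Y] [IsManifold (𝓡 n) ∞ Y] (f : C(X, Y)) (O : Set (X × Y)) (N : Set X)
    (hN : IsOpen N) (hbad : ∀ x, ¬ LD n f x → x ∈ N)
    (hx : ∀ x, ALm n f x) (hO : IsOpen O) (hfO : ∀ x, (x, f x) ∈ O) :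
    ∃ f' : C(X, Y), HomIn O f f' ∧ (∀ x, LD n f' x) ∧ ∀ x, x ∉ N → f' x = f x := by
  classical
  have hf : Continuous f := f.continuous
  have : LocallyCompactSpace X := ChartedSpace.locallyCompactSpace (E n) X
  have hD : ∀ x : X, ∃ D : Set X, IsCompact D ∧ (x ∈ N → x ∈ interior D ∧
      D ⊆ f ⁻¹' (chartAt (E n) (f x)).source ∩ N) := by
    intro x
    by_cases hxN : x ∈ N
    · obtain ⟨D, h1, h2, h3⟩ := exists_compact_subset
        (((chartAt (E n) (f x)).open_source.preimage hf).inter hN)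
        (⟨mem_chart_source (E n) (f x), hxN⟩ : x ∈ f ⁻¹' (chartAt (E n) (f x)).source ∩ N)
      exact ⟨D, h1, fun _ => ⟨h2, h3⟩⟩
    · exact ⟨∅, isCompact_empty, fun h => absurd h hxN⟩
  choose D hDc hDx using hD
  have hZ : IsCompact {x | ¬ LD n f x} := by
    apply IsClosed.isCompact
    rw [← isOpen_compl_iff, isOpen_iff_mem_nhds]
    intro x hx
    have hx' : LD n f x := by
      by_contra h
      exact hx h
    filter_upwards [hx'.eventually] with y hy h using h hy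
  obtain ⟨t, htZ, ht⟩ := hZ.elim_nhds_subcover (fun x => interior (D x))
    (fun x hxZ => isOpen_interior.mem_nhds (hDx x (hbad x hxZ)).1)
  have htN : ∀ x ∈ t, x ∈ N := fun x hxt => hbad x (htZ x hxt)
  obtain ⟨O', hO'd⟩ : ∃ O' : Set (X × Y), O' = O ∩ ⋂ x ∈ t, {p : X × Y | p.1 ∉ D x ∨
    p.2 ∈ (chartAt (E n) (f x)).source} := ⟨_, rfl⟩
  have hO'm : ∀ p : X × Y, p ∈ O' ↔ p ∈ O ∧ ∀ x ∈ t, p.1 ∉ D x ∨
      p.2 ∈ (chartAt (E n) (f x)).source := by
    intro p
    rw [hO'd]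
    simp
  have hO'o : IsOpen O' := by
    rw [hO'd]
    refine hO.inter (isOpen_biInter_finset fun x _ => ?_)
    have h1 : IsOpen {p : X × Y | p.1 ∉ D x} :=
      (hDc x).isClosed.isOpen_compl.preimage continuous_fst
    have h2 : IsOpen {p : X × Y | p.2 ∈ (chartAt (E n) (f x)).source} :=
      (chartAt (E n) (f x)).open_source.preimage continuous_snd
    exact h1.union h2
  have hfO' : ∀ x, (x, f x) ∈ O' := by
    intro x
    rw [hO'm]
    refine ⟨hfO x, fun z hz => ?_⟩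
    by_cases hzx : x ∈ D z
    · exact Or.inr ((hDx z (htN z hz)).2 hzx).1
    · exact Or.inl hzx
  have hind : ∀ s : Finset X, s ⊆ t → ∃ f' : C(X, Y),
      (∀ x, ALm n f' x) ∧ HomIn O' f f' ∧ (∀ x, LD n f x → LD n f' x) ∧
      (∀ z ∈ s, ∀ x ∈ D z, LD n f' x) ∧ ∀ x, x ∉ N → f' x = f x := by
    intro s
    induction s using Finset.induction_on with
    | empty =>
      intro _
      exact ⟨f, hx, HomIn.refl hfO', fun _ h => h, fun z hz => absurd hz (Finset.notMem_empty z),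
        fun _ _ => rfl⟩
    | insert a s ha ih =>
      intro hst
      obtain ⟨f1, h2, h0, h1, h4, h5⟩ := ih ((Finset.subset_insert a s).trans hst)
      have h3 : ∀ x, (x, f1 x) ∈ O' := h0.right
      have hat : a ∈ t := hst (Finset.mem_insert_self a s)
      obtain ⟨f2, h6, h7, h8, h9, h9'⟩ := alstage n X Y f1 (D a) (chartAt (E n) (f a)).source
        (chartAt (E n) (f a)) O' N h2 (hDc a) (chartAt (E n) (f a)).open_source
        (chartAt (E n) (f a)).injOn (fun y hy => LD_chart (f a) y hy)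
        (by
          intro x hxa
          rcases ((hO'm _).1 (h3 x)).2 a hat with h10 | h10
          · exact absurd hxa h10
          · exact h10)
        hN (fun x hxa => ((hDx a (htN a hat)).2 hxa).2) hO'o h3
      refine ⟨f2, h6, h0.trans h7, fun x hx => h8 x (h1 x hx), fun z hz x hxz => ?_,
        fun x hxN => (h9' x hxN).trans (h5 x hxN)⟩
      rcases Finset.mem_insert.1 hz with h10 | h10
      · subst h10
        exact h9 x hxz
      · exact h8 x (h4 z h10 x hxz)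
  obtain ⟨f', h1, h2, h3, h4, h5⟩ := hind t (Finset.Subset.refl t)
  refine ⟨f', h2.mono (fun p hp => ((hO'm p).1 hp).1), fun x => ?_, h5⟩
  by_cases hxL : LD n f x
  · exact h3 x hxL
  · obtain ⟨z, hz, hxz⟩ := mem_iUnion₂.1 (ht hxL)
    exact h4 z hz x (interior_subset hxz)

end Pool.Agent.Q130.AL
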