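import Pool.Agent.Y66.CM.All

/-!
# Asymptotically linear maps

`G : ℝ^n → ℝ^n` is asymptotically linear at `z₀` if at all small scales and all centres near `z₀` it
is as close as one likes, relative to the scale, to affine isomorphisms of bounded distortion.
-/

set_option autoImplicit false

open Set Filter Topology Metric Function
open scoped Manifold ContDiff

noncomputable section

namespace Pool.Agent.Q130.AL

open Pool.Agent.Y522

section defs

variable (n : ℕ)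

/-- on the ball of radius `s` around `x` the map `G` is `δ`-close to an affine isomorphism of
distortion at most `K` -/
def Nr (G : E n → E n) (K δ : ℝ) (x : E n) (s : ℝ) : Prop :=
  ∃ T : E n ≃L[ℝ] E n, ‖(T : E n →L[ℝ] E n)‖ * ‖(T.symm : E n →L[ℝ] E n)‖ ≤ K ∧
    ∀ y : E n, ‖y - x‖ ≤ s → ‖G y - G x - T (y - x)‖ ≤ δ * ‖(T : E n →L[ℝ] E n)‖ * s

/-- asymptotic linearity at `z₀` -/
def AL (G : E n → E n) (z₀ : E n) : Prop :=
  ∃ K : ℝ, ∀ δ : ℝ, 0 < δ → ∃ r : ℝ, 0 < r ∧ ∀ x : E n, ‖x - z₀‖ < r → ∀ s : ℝ, 0 < s → s < r →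
    Nr n G K δ x s

variable {X Y : Type} [TopologicalSpace X] [ChartedSpace (E n) X] [TopologicalSpace Y]
  [ChartedSpace (E n) Y]

def ALE (F : X → E n) (x : X) : Prop :=
  ∃ A : E n → X, A 0 = x ∧ LD n A 0 ∧ AL n (fun z => F (A z)) 0

def ALm (f : X → Y) (x : X) : Prop :=
  ∃ B : Y → E n, LD n B (f x) ∧ ALE n (fun y => B (f y)) x

end defs

variable {n : ℕ}

theorem strict_ball {τ : E n → E n} {w : E n} (h : LD n τ w) :
    ∃ D : E n ≃L[ℝ] E n, HasFDerivAt τ (D : E n →L[ℝ] E n) w ∧ ∀ η : ℝ, 0 < η → ∃ ρ : ℝ, 0 < ρ ∧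
      ∀ x y : E n, ‖x - w‖ < ρ → ‖y - w‖ < ρ → ‖τ y - τ x - D (y - x)‖ ≤ η * ‖y - x‖ := by
  obtain ⟨D, hD⟩ := h.exists_equiv
  have hs : HasStrictFDerivAt τ (D : E n →L[ℝ] E n) w :=
    h.contDiffAt.hasStrictFDerivAt' hD (by simp)
  refine ⟨D, hD, fun η hη => ?_⟩
  have h1 : ∀ᶠ z : E n × E n in 𝓝 (w, w), ‖τ z.1 - τ z.2 - D (z.1 - z.2)‖ ≤ η * ‖z.1 - z.2‖ :=
    hs.isLittleO.def hη
  obtain ⟨ρ, hρ, h2⟩ := Metric.eventually_nhds_iff_ball.1 h1
  refine ⟨ρ, hρ, fun x y hx hy => ?_⟩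
  refine h2 (y, x) ?_
  rw [mem_ball, Prod.dist_eq, max_lt_iff, dist_eq_norm, dist_eq_norm]
  exact ⟨hy, hx⟩

theorem ALcongr {G G' : E n → E n} {z : E n} (h : AL n G z) (he : G' =ᶠ[𝓝 z] G) : AL n G' z := by
  obtain ⟨K, hK⟩ := h
  refine ⟨K, fun δ hδ => ?_⟩
  obtain ⟨r, hr, h1⟩ := hK δ hδ
  obtain ⟨ρ, hρ, h2⟩ := Metric.eventually_nhds_iff_ball.1 he
  refine ⟨min r (ρ / 2), lt_min hr (by linarith), fun x hx s hs hs1 => ?_⟩
  obtain ⟨T, hT, h3⟩ := h1 x (hx.trans_le (min_le_left _ _)) s hs (hs1.trans_le (min_le_left _ _))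
  refine ⟨T, hT, fun y hy => ?_⟩
  have hx2 := hx.trans_le (min_le_right _ _)
  have hs2 := hs1.trans_le (min_le_right _ _)
  have h4 : ‖y - z‖ < ρ := by
    have e : y - z = (y - x) + (x - z) := by abel
    rw [e]
    refine (norm_add_le _ _).trans_lt ?_
    linarith
  rw [h2 y (by rw [mem_ball, dist_eq_norm]; exact h4),
    h2 x (by rw [mem_ball, dist_eq_norm]; linarith)]
  exact h3 y hy

theorem norm_comp_le (S T : E n ≃L[ℝ] E n) :
    ‖((S.trans T : E n ≃L[ℝ] E n) : E n →L[ℝ] E n)‖ ≤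
      ‖(T : E n →L[ℝ] E n)‖ * ‖(S : E n →L[ℝ] E n)‖ := by
  have : ((S.trans T : E n ≃L[ℝ] E n) : E n →L[ℝ] E n) =
      (T : E n →L[ℝ] E n).comp (S : E n →L[ℝ] E n) := rfl
  rw [this]
  exact ContinuousLinearMap.opNorm_comp_le _ _

theorem AL.comp_right {G τ : E n → E n} {w : E n} (h : AL n G (τ w)) (hτ : LD n τ w) :
    AL n (fun z => G (τ z)) w := by
  obtain ⟨K, hK⟩ := h
  obtain ⟨D, hD, hstr⟩ := strict_ball hτ
  obtain ⟨N, hN⟩ : ∃ N : ℝ, N = ‖(D : E n →L[ℝ] E n)‖ := ⟨_, rfl⟩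
  obtain ⟨N', hN'⟩ : ∃ N' : ℝ, N' = ‖(D.symm : E n →L[ℝ] E n)‖ := ⟨_, rfl⟩
  have hN0 : 0 ≤ N := by rw [hN]; exact norm_nonneg _
  have hN'0 : 0 ≤ N' := by rw [hN']; exact norm_nonneg _
  refine ⟨|K| * (N * N'), fun δ hδ => ?_⟩
  obtain ⟨η, hη⟩ : ∃ η : ℝ, η = min 1 (δ / (2 * (N' + 1))) := ⟨_, rfl⟩
  have hη0 : 0 < η := by rw [hη]; exact lt_min one_pos (by positivity)
  have hη1 : η ≤ 1 := by rw [hη]; exact min_le_left _ _
  have hη2 : N' * η ≤ δ / 2 := by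
    have h1 : η ≤ δ / (2 * (N' + 1)) := by rw [hη]; exact min_le_right _ _
    calc N' * η ≤ (N' + 1) * (δ / (2 * (N' + 1))) :=
          mul_le_mul (by linarith) h1 hη0.le (by linarith)
      _ = δ / 2 := by field_simp
  obtain ⟨δ₁, hδ₁⟩ : ∃ δ₁ : ℝ, δ₁ = δ / (2 * (N' + 1) * (N + 1)) := ⟨_, rfl⟩
  have hδ₁0 : 0 < δ₁ := by rw [hδ₁]; positivity
  have hδ₁1 : N' * (δ₁ * (N + 1)) ≤ δ / 2 := by
    calc N' * (δ₁ * (N + 1)) ≤ (N' + 1) * (δ₁ * (N + 1)) :=
          mul_le_mul_of_nonneg_right (by linarith) (by positivity)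
      _ = δ / 2 := by rw [hδ₁]; field_simp
  obtain ⟨r₁, hr₁, h1⟩ := hK δ₁ hδ₁0
  obtain ⟨ρ, hρ, h2⟩ := hstr η hη0
  have h3 : ∀ᶠ x in 𝓝 w, τ x ∈ ball (τ w) r₁ := hτ.continuousAt.eventually (ball_mem_nhds _ hr₁)
  obtain ⟨ρ₂, hρ₂, h4⟩ := Metric.eventually_nhds_iff_ball.1 h3
  obtain ⟨r, hr, hr1, hr2, hr3⟩ : ∃ r : ℝ, 0 < r ∧ r ≤ ρ / 2 ∧ r ≤ ρ₂ ∧ (N + 1) * r ≤ r₁ := by
    refine ⟨min (min (ρ / 2) ρ₂) (r₁ / (N + 1)), by positivity,
      (min_le_left _ _).trans (min_le_left _ _), (min_le_left _ _).trans (min_le_right _ _), ?_⟩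
    calc (N + 1) * min (min (ρ / 2) ρ₂) (r₁ / (N + 1)) ≤ (N + 1) * (r₁ / (N + 1)) :=
          mul_le_mul_of_nonneg_left (min_le_right _ _) (by linarith)
      _ = r₁ := by field_simp
  refine ⟨r, hr, fun x hx s hs hsr => ?_⟩
  have hs' : 0 < (N + η) * s := by positivity
  have hs'' : (N + η) * s < r₁ := by
    have h5 : (N + η) * s ≤ (N + 1) * s := mul_le_mul_of_nonneg_right (by linarith) hs.le
    have h6 : (N + 1) * s < (N + 1) * r := mul_lt_mul_of_pos_left hsr (by linarith)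
    linarith
  have hτx : ‖τ x - τ w‖ < r₁ := by
    have h5 := h4 x (by rw [mem_ball, dist_eq_norm]; linarith)
    rwa [mem_ball, dist_eq_norm] at h5
  obtain ⟨T, hT, h5⟩ := h1 (τ x) hτx _ hs' hs''
  have hT0 := norm_nonneg (T : E n →L[ℝ] E n)
  have hTT' : ‖(T : E n →L[ℝ] E n)‖ ≤
      ‖((D.trans T : E n ≃L[ℝ] E n) : E n →L[ℝ] E n)‖ * N' := by
    have h6 := norm_comp_le D.symm (D.trans T)
    have h7 : D.symm.trans (D.trans T) = T := by
      ext v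
      simp
    rw [h7, ← hN'] at h6
    exact h6
  refine ⟨D.trans T, ?_, fun y hy => ?_⟩
  · have h6 := norm_comp_le D T
    have h7 : ‖((D.trans T).symm : E n →L[ℝ] E n)‖ ≤
        ‖(D.symm : E n →L[ℝ] E n)‖ * ‖(T.symm : E n →L[ℝ] E n)‖ := norm_comp_le T.symm D.symm
    rw [← hN] at h6
    rw [← hN'] at h7
    calc _ ≤ (‖(T : E n →L[ℝ] E n)‖ * N) * (N' * ‖(T.symm : E n →L[ℝ] E n)‖) :=
          mul_le_mul h6 h7 (norm_nonneg _) (by positivity)
      _ = (‖(T : E n →L[ℝ] E n)‖ * ‖(T.symm : E n →L[ℝ] E n)‖) * (N * N') := by ring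
      _ ≤ |K| * (N * N') :=
          mul_le_mul_of_nonneg_right (hT.trans (le_abs_self K)) (by positivity)
  · have hyw : ‖y - w‖ < ρ := by
      have e : y - w = (y - x) + (x - w) := by abel
      rw [e]
      refine (norm_add_le _ _).trans_lt ?_
      linarith
    have h6 := h2 x y (by linarith) hyw
    have h7 : ‖τ y - τ x‖ ≤ (N + η) * s := by
      have e : τ y - τ x = (τ y - τ x - D (y - x)) + D (y - x) := by abel
      rw [e]
      refine (norm_add_le _ _).trans ?_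
      have h8 : ‖D (y - x)‖ ≤ N * ‖y - x‖ := by
        rw [hN]
        exact (D : E n →L[ℝ] E n).le_opNorm _
      have h9 : (N + η) * ‖y - x‖ ≤ (N + η) * s :=
        mul_le_mul_of_nonneg_left hy (by positivity)
      linarith
    have h8 := h5 (τ y) h7
    have e : G (τ y) - G (τ x) - (D.trans T) (y - x) =
        (G (τ y) - G (τ x) - T (τ y - τ x)) + T (τ y - τ x - D (y - x)) := by
      rw [map_sub T (τ y - τ x)]
      simp
    show ‖G (τ y) - G (τ x) - (D.trans T) (y - x)‖ ≤ _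
    rw [e]
    refine (norm_add_le _ _).trans ?_
    have h9 : ‖T (τ y - τ x - D (y - x))‖ ≤ ‖(T : E n →L[ℝ] E n)‖ * (η * s) := by
      refine ((T : E n →L[ℝ] E n).le_opNorm _).trans ?_
      refine mul_le_mul_of_nonneg_left (h6.trans ?_) hT0
      exact mul_le_mul_of_nonneg_left hy hη0.le
    have h10 : δ₁ * ‖(T : E n →L[ℝ] E n)‖ * ((N + η) * s) ≤
        ‖(T : E n →L[ℝ] E n)‖ * (δ₁ * (N + 1) * s) := by
      have h11 : δ₁ * (N + η) ≤ δ₁ * (N + 1) := mul_le_mul_of_nonneg_left (by linarith) hδ₁0.le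
      calc δ₁ * ‖(T : E n →L[ℝ] E n)‖ * ((N + η) * s) =
            ‖(T : E n →L[ℝ] E n)‖ * (δ₁ * (N + η) * s) := by ring
        _ ≤ _ := mul_le_mul_of_nonneg_left (mul_le_mul_of_nonneg_right h11 hs.le) hT0
    calc _ ≤ ‖(T : E n →L[ℝ] E n)‖ * (δ₁ * (N + 1) * s) + ‖(T : E n →L[ℝ] E n)‖ * (η * s) :=
          add_le_add (h8.trans h10) h9
      _ = ‖(T : E n →L[ℝ] E n)‖ * ((δ₁ * (N + 1) + η) * s) := by ring
      _ ≤ (‖((D.trans T : E n ≃L[ℝ] E n) : E n →L[ℝ] E n)‖ * N') * ((δ₁ * (N + 1) + η) * s) :=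
          mul_le_mul_of_nonneg_right hTT' (by positivity)
      _ = (N' * (δ₁ * (N + 1)) + N' * η) *
          ‖((D.trans T : E n ≃L[ℝ] E n) : E n →L[ℝ] E n)‖ * s := by ring
      _ ≤ δ * ‖((D.trans T : E n ≃L[ℝ] E n) : E n →L[ℝ] E n)‖ * s := by
          refine mul_le_mul_of_nonneg_right (mul_le_mul_of_nonneg_right ?_ (norm_nonneg _)) hs.le
          linarith

theorem AL.comp_left {G φ : E n → E n} {z : E n} (h : AL n G z) (hc : ContinuousAt G z)
    (hφ : LD n φ (G z)) : AL n (fun w => φ (G w)) z := by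
  obtain ⟨K, hK⟩ := h
  obtain ⟨D, hD, hstr⟩ := strict_ball hφ
  obtain ⟨N, hN⟩ : ∃ N : ℝ, N = ‖(D : E n →L[ℝ] E n)‖ := ⟨_, rfl⟩
  obtain ⟨N', hN'⟩ : ∃ N' : ℝ, N' = ‖(D.symm : E n →L[ℝ] E n)‖ := ⟨_, rfl⟩
  have hN0 : 0 ≤ N := by rw [hN]; exact norm_nonneg _
  have hN'0 : 0 ≤ N' := by rw [hN']; exact norm_nonneg _
  refine ⟨|K| * (N * N'), fun δ hδ => ?_⟩
  obtain ⟨η, hη⟩ : ∃ η : ℝ, η = δ / (4 * (N' + 1)) := ⟨_, rfl⟩
  have hη0 : 0 < η := by rw [hη]; positivity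
  have hη2 : N' * (2 * η) ≤ δ / 2 := by
    calc N' * (2 * η) ≤ (N' + 1) * (2 * η) := mul_le_mul_of_nonneg_right (by linarith) (by linarith)
      _ = δ / 2 := by rw [hη]; field_simp; norm_num
  obtain ⟨δ₁, hδ₁⟩ : ∃ δ₁ : ℝ, δ₁ = min 1 (δ / (2 * (N' + 1) * (N + 1))) := ⟨_, rfl⟩
  have hδ₁0 : 0 < δ₁ := by rw [hδ₁]; exact lt_min one_pos (by positivity)
  have hδ₁2 : δ₁ ≤ 1 := by rw [hδ₁]; exact min_le_left _ _
  have hδ₁1 : N' * (N * δ₁) ≤ δ / 2 := by
    have h1 : δ₁ ≤ δ / (2 * (N' + 1) * (N + 1)) := by rw [hδ₁]; exact min_le_right _ _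
    calc N' * (N * δ₁) ≤ (N' + 1) * ((N + 1) * (δ / (2 * (N' + 1) * (N + 1)))) :=
          mul_le_mul (by linarith) (mul_le_mul (by linarith) h1 hδ₁0.le (by linarith))
            (by positivity) (by linarith)
      _ = δ / 2 := by field_simp
  obtain ⟨r₁, hr₁, h1⟩ := hK δ₁ hδ₁0
  obtain ⟨ρ, hρ, h2⟩ := hstr η hη0
  have h3 : ∀ᶠ x in 𝓝 z, G x ∈ ball (G z) ρ := hc.eventually (ball_mem_nhds _ hρ)
  obtain ⟨ρ₂, hρ₂, h4⟩ := Metric.eventually_nhds_iff_ball.1 h3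
  refine ⟨min r₁ (ρ₂ / 2), lt_min hr₁ (by linarith), fun x hx s hs hsr => ?_⟩
  obtain ⟨T, hT, h5⟩ := h1 x (hx.trans_le (min_le_left _ _)) s hs (hsr.trans_le (min_le_left _ _))
  have hx2 := hx.trans_le (min_le_right _ _)
  have hs2 := hsr.trans_le (min_le_right _ _)
  have hT0 := norm_nonneg (T : E n →L[ℝ] E n)
  have hTT' : ‖(T : E n →L[ℝ] E n)‖ ≤
      N' * ‖((T.trans D : E n ≃L[ℝ] E n) : E n →L[ℝ] E n)‖ := by
    have h6 := norm_comp_le (T.trans D) D.symm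
    have h7 : (T.trans D).trans D.symm = T := by
      ext v
      simp
    rw [h7, ← hN'] at h6
    exact h6
  refine ⟨T.trans D, ?_, fun y hy => ?_⟩
  · have h6 := norm_comp_le T D
    have h7 : ‖((T.trans D).symm : E n →L[ℝ] E n)‖ ≤
        ‖(T.symm : E n →L[ℝ] E n)‖ * ‖(D.symm : E n →L[ℝ] E n)‖ := norm_comp_le D.symm T.symm
    rw [← hN] at h6
    rw [← hN'] at h7
    calc _ ≤ (N * ‖(T : E n →L[ℝ] E n)‖) * (‖(T.symm : E n →L[ℝ] E n)‖ * N') :=
          mul_le_mul h6 h7 (norm_nonneg _) (by positivity)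
      _ = (‖(T : E n →L[ℝ] E n)‖ * ‖(T.symm : E n →L[ℝ] E n)‖) * (N * N') := by ring
      _ ≤ |K| * (N * N') :=
          mul_le_mul_of_nonneg_right (hT.trans (le_abs_self K)) (by positivity)
  · have hyz : ‖y - z‖ < ρ₂ := by
      have e : y - z = (y - x) + (x - z) := by abel
      rw [e]
      refine (norm_add_le _ _).trans_lt ?_
      linarith
    have hGx := h4 x (by rw [mem_ball, dist_eq_norm]; linarith)
    have hGy := h4 y (by rw [mem_ball, dist_eq_norm]; exact hyz)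
    rw [mem_ball, dist_eq_norm] at hGx hGy
    have h6 := h2 (G x) (G y) hGx hGy
    have h8 := h5 y hy
    have h7 : ‖G y - G x‖ ≤ 2 * (‖(T : E n →L[ℝ] E n)‖ * s) := by
      have e : G y - G x = (G y - G x - T (y - x)) + T (y - x) := by abel
      rw [e]
      refine (norm_add_le _ _).trans ?_
      have h9 : ‖T (y - x)‖ ≤ ‖(T : E n →L[ℝ] E n)‖ * s :=
        ((T : E n →L[ℝ] E n).le_opNorm _).trans (mul_le_mul_of_nonneg_left hy hT0)
      have h10 : δ₁ * ‖(T : E n →L[ℝ] E n)‖ * s ≤ 1 * ‖(T : E n →L[ℝ] E n)‖ * s :=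
        mul_le_mul_of_nonneg_right (mul_le_mul_of_nonneg_right hδ₁2 hT0) hs.le
      linarith
    have e : φ (G y) - φ (G x) - (T.trans D) (y - x) =
        (φ (G y) - φ (G x) - D (G y - G x)) + D (G y - G x - T (y - x)) := by
      rw [map_sub D (G y - G x)]
      simp
    show ‖φ (G y) - φ (G x) - (T.trans D) (y - x)‖ ≤ _
    rw [e]
    refine (norm_add_le _ _).trans ?_
    have h9 : ‖D (G y - G x - T (y - x))‖ ≤ N * (δ₁ * ‖(T : E n →L[ℝ] E n)‖ * s) := by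
      refine ((D : E n →L[ℝ] E n).le_opNorm _).trans ?_
      rw [← hN]
      exact mul_le_mul_of_nonneg_left h8 hN0
    have h10 : η * ‖G y - G x‖ ≤ η * (2 * (‖(T : E n →L[ℝ] E n)‖ * s)) :=
      mul_le_mul_of_nonneg_left h7 hη0.le
    calc _ ≤ η * (2 * (‖(T : E n →L[ℝ] E n)‖ * s)) + N * (δ₁ * ‖(T : E n →L[ℝ] E n)‖ * s) :=
          add_le_add (h6.trans h10) h9
      _ = ‖(T : E n →L[ℝ] E n)‖ * ((2 * η + N * δ₁) * s) := by ring
      _ ≤ (N' * ‖((T.trans D : E n ≃L[ℝ] E n) : E n →L[ℝ] E n)‖) * ((2 * η + N * δ₁) * s) :=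
          mul_le_mul_of_nonneg_right hTT' (by positivity)
      _ = (N' * (2 * η) + N' * (N * δ₁)) *
          ‖((T.trans D : E n ≃L[ℝ] E n) : E n →L[ℝ] E n)‖ * s := by ring
      _ ≤ δ * ‖((T.trans D : E n ≃L[ℝ] E n) : E n →L[ℝ] E n)‖ * s := by
          refine mul_le_mul_of_nonneg_right (mul_le_mul_of_nonneg_right ?_ (norm_nonneg _)) hs.le
          linarith

theorem AL_of_LD {G : E n → E n} {z : E n} (h : LD n G z) : AL n G z := by
  obtain ⟨D, hD, hstr⟩ := strict_ball h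
  refine ⟨‖(D : E n →L[ℝ] E n)‖ * ‖(D.symm : E n →L[ℝ] E n)‖, fun δ hδ => ?_⟩
  rcases (norm_nonneg (D : E n →L[ℝ] E n)).lt_or_eq with hN | hN
  · obtain ⟨ρ, hρ, h2⟩ := hstr (δ * ‖(D : E n →L[ℝ] E n)‖) (by positivity)
    refine ⟨ρ / 2, by linarith, fun x hx s hs hsr => ⟨D, le_rfl, fun y hy => ?_⟩⟩
    have hyz : ‖y - z‖ < ρ := by
      have e : y - z = (y - x) + (x - z) := by abel
      rw [e]
      refine (norm_add_le _ _).trans_lt ?_
      linarith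
    exact (h2 x y (by linarith) hyz).trans (mul_le_mul_of_nonneg_left hy (by positivity))
  · have h0 : ∀ v : E n, v = 0 := by
      intro v
      have h1 := (D : E n →L[ℝ] E n).le_opNorm v
      rw [← hN, zero_mul] at h1
      have h2 : D v = 0 := norm_le_zero_iff.1 h1
      exact D.injective (by rw [h2, map_zero])
    refine ⟨1, one_pos, fun x hx s hs hsr => ⟨D, le_rfl, fun y hy => ?_⟩⟩
    rw [h0 (G y - G x - D (y - x)), norm_zero]
    positivity

section manifold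

variable {X Y : Type} [TopologicalSpace X] [ChartedSpace (E n) X] [TopologicalSpace Y]
  [ChartedSpace (E n) Y]

/-- asymptotic linearity in an arbitrary parametrization -/
theorem ALE.box {F : X → E n} {x : X} (h : ALE n F x) {B : E n → X} {z : E n} (hB : LD n B z)
    (hz : B z = x) : AL n (fun w => F (B w)) z := by
  obtain ⟨A, hA0, hA, hF⟩ := h
  obtain ⟨p, hp1, hp2, hp3, hp4⟩ := hA.exists_inverse
  rw [hA0] at hp1 hp2 hp4
  have h1 : LD n (fun w => p (B w)) z := by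
    refine LD.comp_fun ?_ hB
    rw [hz]
    exact hp1
  have h2 : AL n (fun w => (fun v => F (A v)) (p (B w))) z := by
    refine AL.comp_right (G := fun v => F (A v)) (τ := fun w => p (B w)) ?_ h1
    rw [hz, hp2]
    exact hF
  refine ALcongr h2 ?_
  have h3 : ∀ᶠ w in 𝓝 z, A (p (B w)) = B w := by
    have h4 : Tendsto B (𝓝 z) (𝓝 x) := by
      have := hB.continuousAt
      rwa [ContinuousAt, hz] at this
    exact h4.eventually hp4
  filter_upwards [h3] with w hw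
  show F (B w) = F (A (p (B w)))
  rw [hw]

theorem ALE.congr {F F' : X → E n} {x : X} (h : ALE n F x) (he : F' =ᶠ[𝓝 x] F) : ALE n F' x := by
  obtain ⟨A, hA0, hA, hF⟩ := h
  refine ⟨A, hA0, hA, ALcongr hF ?_⟩
  have h4 : Tendsto A (𝓝 0) (𝓝 x) := by
    have := hA.continuousAt
    rwa [ContinuousAt, hA0] at this
  exact h4.eventually he

theorem ALE.change {f : X → Y} {x : X} {B B' : Y → E n} (hf : ContinuousAt f x)
    (hB : LD n B (f x)) (hB' : LD n B' (f x)) (h : ALE n (fun y => B (f y)) x) :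
    ALE n (fun y => B' (f y)) x := by
  obtain ⟨p, hp1, hp2, hp3, -⟩ := hB.exists_inverse
  obtain ⟨A, hA0, hAd, hm⟩ := h
  have hAt : Tendsto A (𝓝 0) (𝓝 x) := by
    have := hAd.continuousAt
    rwa [ContinuousAt, hA0] at this
  refine ⟨A, hA0, hAd, ?_⟩
  have hc : ContinuousAt (fun z => B (f (A z))) 0 := by
    have h1 : ContinuousAt (fun z => f (A z)) 0 := by
      refine ContinuousAt.comp (g := f) ?_ hAd.continuousAt
      rw [hA0]
      exact hf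
    refine ContinuousAt.comp (g := B) ?_ h1
    rw [hA0]
    exact hB.continuousAt
  have hφ : LD n (fun v => B' (p v)) (B (f (A 0))) := by
    rw [hA0]
    refine LD.comp_fun (g := B') (f := p) ?_ hp1
    rw [hp2]
    exact hB'
  have h2 : AL n (fun w => B' (p (B (f (A w))))) 0 :=
    AL.comp_left (G := fun z => B (f (A z))) (φ := fun v => B' (p v)) (z := 0) hm hc hφ
  refine ALcongr h2 ?_
  have h3 : ∀ᶠ w in 𝓝 (0 : E n), p (B (f (A w))) = f (A w) := (hf.tendsto.comp hAt).eventually hp3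
  filter_upwards [h3] with w hw
  show B' (f (A w)) = B' (p (B (f (A w))))
  rw [hw]

theorem ALm.congr {f f' : X → Y} {x : X} (h : ALm n f x) (he : f' =ᶠ[𝓝 x] f) : ALm n f' x := by
  obtain ⟨B, hB, h1⟩ := h
  refine ⟨B, ?_, h1.congr ?_⟩
  · rw [he.self_of_nhds]
    exact hB
  · filter_upwards [he] with y hy
    rw [hy]

variable [IsManifold (𝓡 n) ∞ X] [IsManifold (𝓡 n) ∞ Y]

theorem exists_param (x : X) : ∃ A : E n → X, A 0 = x ∧ LD n A 0 := by
  have h1 : LD n (chartAt (E n) x : X → E n) x :=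
    Pool.Agent.Y66.CM.LD_chart x x (mem_chart_source _ _)
  have h2 : LD n (fun z : E n => z - chartAt (E n) x x) (chartAt (E n) x x) := by
    refine LD_of_contDiffAt (Eventually.of_forall fun z => ?_)
      (ContinuousLinearEquiv.refl ℝ (E n)) ?_
    · exact contDiffAt_id.sub contDiffAt_const
    · exact (hasFDerivAt_id _).sub_const _
  have hφ : LD n (fun y : X => chartAt (E n) x y - chartAt (E n) x x) x :=
    LD.comp_fun (g := fun z : E n => z - chartAt (E n) x x) h2 h1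
  obtain ⟨p, hp1, hp2, hp3, hp4⟩ := hφ.exists_inverse
  simp only [sub_self] at hp1 hp2 hp4
  exact ⟨p, hp2, hp1⟩

theorem ALE_of_LD {F : X → E n} {x : X} (h : LD n F x) : ALE n F x := by
  obtain ⟨A, hA0, hA⟩ := exists_param (n := n) x
  refine ⟨A, hA0, hA, AL_of_LD ?_⟩
  refine LD.comp_fun ?_ hA
  rw [hA0]
  exact h

theorem ALm_of_LD {f : X → Y} {x : X} (h : LD n f x) : ALm n f x := by
  refine ⟨chartAt (E n) (f x), Pool.Agent.Y66.CM.LD_chart _ _ (mem_chart_source _ _), ?_⟩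
  refine ALE_of_LD ?_
  exact LD.comp_fun (Pool.Agent.Y66.CM.LD_chart _ _ (mem_chart_source _ _)) h

end manifold

end Pool.Agent.Q130.AL
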