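import Pool.Agent.Y207.SH.MStepA
import Pool.Agent.Y954.SH.MollS

/-!
# The derivative of a mollification of a map which is nearly affine at the scale of the kernel
-/

set_option autoImplicit false

open Set Filter Topology Metric Function MeasureTheory
open scoped Manifold ContDiff

noncomputable section

namespace Pool.Agent.Q130.AL

open Pool.Agent.Y522 Pool.Agent.Y207.SH3

theorem pow_sub_one_le (n : ℕ) {t : ℝ} (h0 : 0 ≤ t) (h2 : t ≤ 2) :
    |t ^ n - 1| ≤ n * 2 ^ n * |t - 1| := by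
  induction n with
  | zero => simp
  | succ n ih =>
    have e : t ^ (n + 1) - 1 = t * (t ^ n - 1) + (t - 1) := by ring
    rw [e]
    refine (abs_add_le _ _).trans ?_
    rw [abs_mul, abs_of_nonneg h0]
    have h3 : t * |t ^ n - 1| ≤ 2 * (n * 2 ^ n * |t - 1|) :=
      mul_le_mul h2 ih (abs_nonneg _) (by norm_num)
    have h4 : (1 : ℝ) ≤ 2 ^ (n + 1) := one_le_pow₀ (by norm_num)
    have h5 : |t - 1| ≤ 2 ^ (n + 1) * |t - 1| := by
      have := mul_le_mul_of_nonneg_right h4 (abs_nonneg (t - 1))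
      linarith
    push_cast
    calc t * |t ^ n - 1| + |t - 1| ≤ 2 * (n * 2 ^ n * |t - 1|) + 2 ^ (n + 1) * |t - 1| :=
          add_le_add h3 h5
      _ = (n + 1) * 2 ^ (n + 1) * |t - 1| := by ring

theorem kr_lip (n : ℕ) : ∃ L : ℝ, 0 ≤ L ∧ ∀ v w : E n, |kr n v - kr n w| ≤ L * ‖v - w‖ := by
  obtain ⟨K, hK⟩ : ∃ K : NNReal, LipschitzWith K (kr n) := by
    refine ((bmp n).contDiff_normed (n := 1)).lipschitzWith_of_hasCompactSupport ?_ (by simp)
    exact (bmp n).hasCompactSupport_normed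
  refine ⟨K, K.2, fun v w => ?_⟩
  have h2 := hK.dist_le_mul v w
  rwa [Real.dist_eq, dist_eq_norm] at h2

theorem kr_bdd (n : ℕ) : ∃ M : ℝ, 0 ≤ M ∧ ∀ v : E n, kr n v ≤ M := by
  obtain ⟨L, hL, h⟩ := kr_lip n
  refine ⟨L + |kr n 0|, by positivity, fun v => ?_⟩
  by_cases hv : kr n v = 0
  · rw [hv]
    positivity
  · have h1 := h v 0
    have h2 := (kr_lt hv).le
    rw [sub_zero] at h1
    have h3 := le_abs_self (kr n v - kr n 0)
    have h4 := le_abs_self (kr n 0)
    nlinarith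

theorem kernel_diff (n : ℕ) : ∃ C : ℝ, 0 < C ∧ ∀ (a b : ℝ) (d σ : E n), 0 < a → a / 2 ≤ b →
    |b - a| ≤ ‖d‖ / 2 → ‖σ‖ ≤ 2 →
    |(a / b) ^ n * kr n ((a / b) • σ + b⁻¹ • d) - kr n σ| ≤ C * (‖d‖ / a) := by
  obtain ⟨L, hL, hl⟩ := kr_lip n
  obtain ⟨M, hM, hm⟩ := kr_bdd n
  refine ⟨n * 2 ^ n * M + 4 * L + 1, by positivity, fun a b d σ ha hab hbd hσ => ?_⟩
  have hb : 0 < b := by linarith
  have hd := norm_nonneg d
  have h1 : |a / b - 1| ≤ ‖d‖ / a := by
    have e : a / b - 1 = (a - b) / b := by field_simp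
    rw [e, abs_div, abs_of_pos hb, abs_sub_comm, div_le_div_iff₀ hb ha]
    nlinarith
  have h2 : a / b ≤ 2 := by
    rw [div_le_iff₀ hb]
    linarith
  have h3 : 0 ≤ a / b := by positivity
  have h4 := pow_sub_one_le n h3 h2
  obtain ⟨w, hw⟩ : ∃ w, w = (a / b) • σ + b⁻¹ • d := ⟨_, rfl⟩
  rw [← hw]
  have h5 : ‖w - σ‖ ≤ 4 * (‖d‖ / a) := by
    have e : w - σ = (a / b - 1) • σ + b⁻¹ • d := by
      rw [hw, sub_smul, one_smul]; abel
    rw [e]
    refine (norm_add_le _ _).trans ?_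
    rw [norm_smul, norm_smul, Real.norm_eq_abs, Real.norm_eq_abs, abs_of_pos (inv_pos.2 hb)]
    have h6 : |a / b - 1| * ‖σ‖ ≤ ‖d‖ / a * 2 :=
      mul_le_mul h1 hσ (norm_nonneg _) (by positivity)
    have h7 : b⁻¹ * ‖d‖ ≤ 2 * (‖d‖ / a) := by
      rw [inv_mul_eq_div, mul_div_assoc', div_le_div_iff₀ hb ha]
      nlinarith
    linarith
  have h6 := hl w σ
  have e : (a / b) ^ n * kr n w - kr n σ = ((a / b) ^ n - 1) * kr n w + (kr n w - kr n σ) := by
    ring
  rw [e]
  refine (abs_add_le _ _).trans ?_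
  rw [abs_mul, abs_of_nonneg (kr_nonneg w)]
  have h7 : |(a / b) ^ n - 1| * kr n w ≤ n * 2 ^ n * (‖d‖ / a) * M := by
    refine mul_le_mul (h4.trans ?_) (hm w) (kr_nonneg w) (by positivity)
    exact mul_le_mul_of_nonneg_left h1 (by positivity)
  have h8 : L * ‖w - σ‖ ≤ L * (4 * (‖d‖ / a)) := mul_le_mul_of_nonneg_left h5 hL
  have h9 : 0 ≤ ‖d‖ / a := by positivity
  nlinarith

/-- the change of variables -/
theorem moll_change (n : ℕ) (Φ : E n → E n) (z q : E n) (a b : ℝ) (ha : 0 < a) (hb : 0 < b) :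
    ∫ s, kr n s • Φ (q + b • s) = ∫ s, ((a / b) ^ n * kr n ((a / b) • s + b⁻¹ • (z - q))) •
      Φ (z + a • s) := by
  obtain ⟨h, hh⟩ : ∃ h : E n → E n, h = fun s => kr n s • Φ (q + b • s) := ⟨_, rfl⟩
  have h1 : ∫ s, h ((a / b) • (s + a⁻¹ • (z - q))) = |((a / b) ^ n)⁻¹| • ∫ s, h s := by
    rw [integral_add_right_eq_self (fun s => h ((a / b) • s)) (a⁻¹ • (z - q))]
    rw [Measure.integral_comp_smul volume h (a / b)]
    rw [finrank_euclideanSpace, Fintype.card_fin]
  have hp : 0 < (a / b) ^ n := by positivity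
  have h2 : ∫ s, h s = (a / b) ^ n • ∫ s, h ((a / b) • (s + a⁻¹ • (z - q))) := by
    rw [h1, abs_of_pos (inv_pos.2 hp), smul_smul, mul_inv_cancel₀ hp.ne', one_smul]
  have h3 : ∫ s, kr n s • Φ (q + b • s) = ∫ s, h s := by rw [hh]
  rw [h3, h2, ← integral_smul]
  congr 1
  funext s
  rw [hh]
  simp only
  have e1 : (a / b) • (s + a⁻¹ • (z - q)) = (a / b) • s + b⁻¹ • (z - q) := by
    rw [smul_add, smul_smul]
    congr 2
    field_simp
  have e2 : q + b • ((a / b) • (s + a⁻¹ • (z - q))) = z + a • s := by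
    rw [smul_smul, smul_add, smul_smul]
    have e3 : b * (a / b) = a := by field_simp
    rw [e3, mul_inv_cancel₀ ha.ne', one_smul]
    abel
  rw [e2, e1, smul_smul]

theorem moll_diff (n : ℕ) : ∃ C : ℝ, 0 < C ∧ ∀ (Φ : E n → E n) (z q : E n) (a b η : ℝ), 0 < a →
    ‖q - z‖ ≤ a / 4 → |b - a| ≤ ‖q - z‖ / 2 → 0 ≤ η → ContinuousOn Φ (closedBall z (2 * a)) →
    (∀ y, ‖y - z‖ ≤ 2 * a → ‖Φ y‖ ≤ η) →
    ‖(∫ s, kr n s • Φ (q + b • s)) - ∫ s, kr n s • Φ (z + a • s)‖ ≤ C * (η * (‖q - z‖ / a)) := by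
  obtain ⟨C, hC, hk⟩ := kernel_diff n
  refine ⟨C * (volume.real (closedBall (0 : E n) 2)) + 1, by positivity,
    fun Φ z q a b η ha hq hb hη hΦ hΦη => ?_⟩
  have hb1 := (abs_le.1 hb).1
  have hb2 := (abs_le.1 hb).2
  have hb0 : a / 2 ≤ b := by linarith
  have hb0' : 0 < b := by linarith
  rw [moll_change n Φ z q a b ha hb0']
  obtain ⟨τ, hτ⟩ : ∃ τ : E n → E n, τ = fun s => (a / b) • s + b⁻¹ • (z - q) := ⟨_, rfl⟩
  have hτs : ∀ s, (a / b) • s + b⁻¹ • (z - q) = τ s := fun s => by rw [hτ]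
  have hτc : Continuous τ := by rw [hτ]; fun_prop
  simp only [hτs]
  have hnorm : ∀ s : E n, ‖z + a • s - z‖ = a * ‖s‖ := by
    intro s
    rw [add_sub_cancel_left, norm_smul, Real.norm_of_nonneg ha.le]
  -- supports
  have hz1 : ∀ s : E n, s ∉ closedBall (0 : E n) 2 → kr n (τ s) = 0 := by
    intro s hs
    by_contra h
    have h1 := kr_lt h
    apply hs
    rw [mem_closedBall_zero_iff]
    have h2 : a • s = b • τ s - (z - q) := by
      rw [hτ]
      simp only
      rw [smul_add, smul_smul, smul_smul, mul_div_cancel₀ _ hb0'.ne', mul_inv_cancel₀ hb0'.ne',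
        one_smul, add_sub_cancel_right]
    have h3 : a * ‖s‖ ≤ b * ‖τ s‖ + ‖z - q‖ := by
      have h4 : ‖a • s‖ ≤ ‖b • τ s‖ + ‖z - q‖ := by
        rw [h2]
        exact norm_sub_le _ _
      rwa [norm_smul, norm_smul, Real.norm_of_nonneg ha.le, Real.norm_of_nonneg hb0'.le] at h4
    rw [norm_sub_rev] at h3
    have h5 : b * ‖τ s‖ ≤ b * 1 := mul_le_mul_of_nonneg_left h1.le hb0'.le
    have h6 : a * ‖s‖ ≤ a * 2 := by linarith
    exact le_of_mul_le_mul_left h6 ha
  have hz2 : ∀ s : E n, s ∉ closedBall (0 : E n) 2 → kr n s = 0 := by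
    intro s hs
    refine kr_zero ?_
    rw [mem_closedBall_zero_iff, not_le] at hs
    linarith
  have hΦc : ContinuousOn (fun s => Φ (z + a • s)) (closedBall (0 : E n) 2) := by
    refine hΦ.comp (by fun_prop) ?_
    intro s hs
    rw [mem_closedBall_zero_iff] at hs
    rw [mem_closedBall, dist_eq_norm, hnorm]
    nlinarith
  have hi1 : IntegrableOn (fun s => ((a / b) ^ n * kr n (τ s)) • Φ (z + a • s))
      (closedBall (0 : E n) 2) := by
    refine ContinuousOn.integrableOn_compact (isCompact_closedBall _ _) ?_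
    have hk1 : ContinuousOn (fun s : E n => (a / b) ^ n * kr n (τ s)) (closedBall (0 : E n) 2) :=
      (continuous_const.mul (kr_cont.comp hτc)).continuousOn
    exact hk1.smul hΦc
  have hi2 : IntegrableOn (fun s => kr n s • Φ (z + a • s)) (closedBall (0 : E n) 2) :=
    (kr_cont.continuousOn.smul hΦc).integrableOn_compact (isCompact_closedBall _ _)
  rw [← setIntegral_eq_integral_of_forall_compl_eq_zero (s := closedBall (0 : E n) 2)
    (f := fun s => ((a / b) ^ n * kr n (τ s)) • Φ (z + a • s))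
    (fun s hs => by rw [hz1 s hs, mul_zero, zero_smul]),
    ← setIntegral_eq_integral_of_forall_compl_eq_zero (s := closedBall (0 : E n) 2)
    (f := fun s => kr n s • Φ (z + a • s))
    (fun s hs => by rw [hz2 s hs, zero_smul]), ← integral_sub hi1 hi2]
  have hle : ‖∫ s in closedBall (0 : E n) 2, (((a / b) ^ n * kr n (τ s)) • Φ (z + a • s) -
      kr n s • Φ (z + a • s))‖ ≤ C * (‖z - q‖ / a) * η * volume.real (closedBall (0 : E n) 2) := by
    refine norm_setIntegral_le_of_norm_le_const measure_closedBall_lt_top ?_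
    intro s hs
    rw [← sub_smul, norm_smul, Real.norm_eq_abs]
    rw [mem_closedBall_zero_iff] at hs
    have h1 := hk a b (z - q) s ha hb0 (by rw [norm_sub_rev]; exact hb) hs
    rw [hτs] at h1
    refine mul_le_mul h1 (hΦη _ ?_) (norm_nonneg _) (by positivity)
    rw [hnorm]
    nlinarith
  refine hle.trans ?_
  rw [norm_sub_rev z q]
  have h1 : 0 ≤ η * (‖q - z‖ / a) := by positivity
  have e : C * (‖q - z‖ / a) * η * volume.real (closedBall (0 : E n) 2) =
      C * volume.real (closedBall (0 : E n) 2) * (η * (‖q - z‖ / a)) := by ring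
  rw [e]
  nlinarith

/-- the mean of an affine map -/
theorem kr_mean_lin (n : ℕ) : ∫ s, kr n s • s = (0 : E n) := by
  have h1 : ∫ s, kr n s • s = ∫ s, kr n (-s) • (-s : E n) :=
    (integral_neg_eq_self (fun s : E n => kr n s • s) volume).symm
  have h2 : ∀ s : E n, kr n (-s) = kr n s := by
    intro s
    unfold kr
    exact (bmp n).normed_neg s
  simp only [h2, smul_neg, integral_neg] at h1
  have h3 : (2 : ℝ) • ∫ s, kr n s • s = (0 : E n) := by
    rw [two_smul]
    nth_rewrite 1 [h1]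
    abel
  exact (smul_eq_zero.1 h3).resolve_left (by norm_num)

/-- the mean of `G` minus an affine map -/
theorem moll_sub_affine (n : ℕ) (G : E n → E n) (T : E n →L[ℝ] E n) (v x q : E n) (b : ℝ)
    (hG : ContinuousOn (fun s : E n => G (q + b • s)) (closedBall 0 1)) :
    ∫ s, kr n s • (G (q + b • s) - v - T (q + b • s - x)) =
      (∫ s, kr n s • G (q + b • s)) - v - T (q - x) := by
  have h1 : ∀ s : E n, kr n s • (G (q + b • s) - v - T (q + b • s - x)) =
      kr n s • G (q + b • s) - kr n s • (v + T (q - x)) - b • T (kr n s • s) := by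
    intro s
    rw [map_smul, smul_comm b, ← smul_sub, ← smul_sub]
    congr 1
    have e : q + b • s - x = (q - x) + b • s := by abel
    rw [e, map_add, map_smul]
    abel
  simp only [h1]
  have i1 := kr_smul_integrable hG
  have i2 : Integrable (fun s : E n => kr n s • (v + T (q - x))) :=
    kr_smul_integrable (f := fun _ => v + T (q - x)) continuousOn_const
  have i3 : Integrable (fun s : E n => kr n s • s) :=
    kr_smul_integrable (f := fun s => s) continuousOn_id
  have i4 : Integrable (fun s : E n => b • T (kr n s • s)) := (T.integrable_comp i3).smul b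
  have i12 : Integrable (fun s : E n => kr n s • G (q + b • s) - kr n s • (v + T (q - x))) :=
    i1.sub i2
  rw [integral_sub i12 i4, integral_sub i1 i2, integral_smul_const, kr_int, one_smul,
    integral_smul, ContinuousLinearMap.integral_comp_comm T i3, kr_mean_lin, map_zero, smul_zero,
    sub_zero]
  abel

/-- **The derivative of the mollification of a nearly affine map.** -/
theorem fderiv_moll (n : ℕ) : ∃ C : ℝ, 0 < C ∧ ∀ (G : E n → E n) (c : E n → ℝ) (z : E n)
    (T : E n →L[ℝ] E n) (η : ℝ), ContinuousOn G (closedBall 0 2) → ‖z‖ ≤ 1 → 0 < c z →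
    c z ≤ 1 / 4 → (∀ y, |c y - c z| ≤ ‖y - z‖ / 2) → DifferentiableAt ℝ (Moll n G c) z →
    0 ≤ η → (∀ y, ‖y - z‖ ≤ 2 * c z → ‖G y - G z - T (y - z)‖ ≤ η) →
    ‖fderiv ℝ (Moll n G c) z - T‖ ≤ C * (η / c z) := by
  obtain ⟨C, hC, hm⟩ := moll_diff n
  refine ⟨C, hC, fun G c z T η hG hz hcz hc4 hcL hd hη hT => ?_⟩
  obtain ⟨Φ, hΦ⟩ : ∃ Φ : E n → E n, Φ = fun y => G y - G z - T (y - z) := ⟨_, rfl⟩
  have hΦv : ∀ y, Φ y = G y - G z - T (y - z) := fun y => by rw [hΦ]
  have hsub : closedBall z (2 * c z) ⊆ closedBall (0 : E n) 2 := by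
    intro y hy
    rw [mem_closedBall, dist_eq_norm] at hy
    rw [mem_closedBall_zero_iff]
    have := norm_le_norm_add_norm_sub' y z
    linarith
  have hΦc : ContinuousOn Φ (closedBall z (2 * c z)) := by
    rw [hΦ]
    refine ((hG.mono hsub).sub continuousOn_const).sub ?_
    exact (T.continuous.comp (continuous_id.sub continuous_const)).continuousOn
  have hder : HasFDerivAt (fun q => Moll n G c q - T q) (fderiv ℝ (Moll n G c) z - T) z :=
    hd.hasFDerivAt.sub T.hasFDerivAt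
  refine hder.le_of_lip' (by positivity) ?_
  have h1 : ∀ᶠ q in 𝓝 z, ‖q - z‖ ≤ c z / 4 := by
    filter_upwards [ball_mem_nhds z (show 0 < c z / 4 by linarith)] with q hq
    rw [mem_ball, dist_eq_norm] at hq
    exact hq.le
  filter_upwards [h1] with q hq
  have hcq := hcL q
  have h2 : ∀ (p : E n), ‖p - z‖ ≤ c z / 4 → ContinuousOn (fun s : E n => G (p + c p • s))
      (closedBall 0 1) := by
    intro p hp
    refine hG.comp (by fun_prop) ?_
    intro s hs
    rw [mem_closedBall_zero_iff] at hs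
    apply hsub
    rw [mem_closedBall, dist_eq_norm]
    have h3 : p + c p • s - z = (p - z) + c p • s := by abel
    rw [h3]
    refine (norm_add_le _ _).trans ?_
    rw [norm_smul, Real.norm_eq_abs]
    have h4 := hcL p
    have h5 : |c p| ≤ c z + ‖p - z‖ / 2 := by
      have h6 : c p = c z + (c p - c z) := by ring
      rw [h6]
      refine (abs_add_le _ _).trans ?_
      rw [abs_of_pos hcz]
      linarith
    have h7 : |c p| * ‖s‖ ≤ (c z + ‖p - z‖ / 2) * 1 :=
      mul_le_mul h5 hs (norm_nonneg _) (by positivity)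
    linarith
  have e1 := moll_sub_affine n G T (G z) z q (c q) (h2 q hq)
  have e2 := moll_sub_affine n G T (G z) z z (c z) (h2 z (by rw [sub_self, norm_zero]; linarith))
  have e3 : Moll n G c q - T q - (Moll n G c z - T z) =
      (∫ s, kr n s • Φ (q + c q • s)) - ∫ s, kr n s • Φ (z + c z • s) := by
    simp only [hΦv]
    rw [e1, e2]
    unfold Moll
    rw [map_sub, map_sub]
    abel
  rw [e3]
  have h3 := hm Φ z q (c z) (c q) η hcz hq hcq hη hΦc (fun y hy => by rw [hΦv]; exact hT y hy)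
  refine h3.trans (le_of_eq ?_)
  ring

end Pool.Agent.Q130.AL
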