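import Pool.Agent.Q130.AL.Moll
import Pool.Agent.Q130.AL.Defs
import Pool.Agent.Q130.CM.Step
import Pool.Agent.Y522.Sch

/-!
# Asymptotically linear maps: one smoothing step
-/

set_option autoImplicit false

open Set Filter Topology Metric Function MeasureTheory
open scoped Manifold ContDiff

noncomputable section

namespace Pool.Agent.Q130.AL

open Pool.Agent.Y522 Pool.Agent.Y207.SH3 Pool.Agent.Q130.CM

/-- close to an affine isomorphism, relative to its inverse -/
def Clo (n : ℕ) (C : ℝ) (G : E n → E n) (z : E n) (s : ℝ) : Prop :=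
  ∃ (T : E n ≃L[ℝ] E n) (η : ℝ), 0 ≤ η ∧ 2 * C * η * ‖(T.symm : E n →L[ℝ] E n)‖ < 1 ∧
    ∀ y, ‖y - z‖ ≤ s → ‖G y - G z - T (y - z)‖ ≤ η * s

theorem clo_of_AL {n : ℕ} {C : ℝ} (hC : 0 < C) {G : E n → E n} {z : E n} (h : AL n G z) :
    ∃ r : ℝ, 0 < r ∧ ∀ x, ‖x - z‖ < r → ∀ s, 0 < s → s < r → Clo n C G x s := by
  obtain ⟨K, hK⟩ := h
  obtain ⟨r, hr, h1⟩ := hK (1 / (4 * C * (|K| + 1))) (by positivity)
  refine ⟨r, hr, fun x hx s hs hsr => ?_⟩
  obtain ⟨T, hT, h2⟩ := h1 x hx s hs hsr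
  refine ⟨T, 1 / (4 * C * (|K| + 1)) * ‖(T : E n →L[ℝ] E n)‖, by positivity, ?_, h2⟩
  have h3 := hT.trans (le_abs_self K)
  have e : 2 * C * (1 / (4 * C * (|K| + 1)) * ‖(T : E n →L[ℝ] E n)‖) *
      ‖(T.symm : E n →L[ℝ] E n)‖ = (‖(T : E n →L[ℝ] E n)‖ * ‖(T.symm : E n →L[ℝ] E n)‖) /
        (2 * (|K| + 1)) := by
    field_simp
    norm_num
  rw [e, div_lt_one (by positivity)]
  have := abs_nonneg K
  linarith

/-- asymptotic linearity at the points where the radius of the kernel vanishes -/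
theorem AL_moll (n : ℕ) (G : E n → E n) (c : E n → ℝ) (z : E n) (hG : ContinuousOn G (closedBall 0 2))
    (hz : ‖z‖ ≤ 1) (hc : Continuous c) (hc0 : ∀ y, 0 ≤ c y) (hc4 : ∀ y, c y ≤ 1 / 4)
    (hc1 : ∀ y, 1 < ‖y‖ → c y = 0)
    (hcL : ∀ x y, |c y - c x| ≤ ‖y - x‖ / 2) (hcz : c z = 0)
    (hd : ∀ y, 0 < c y → DifferentiableAt ℝ (Moll n G c) y) (h : AL n G z) :
    AL n (Moll n G c) z := by
  obtain ⟨C, hC, hder⟩ := fderiv_moll n
  obtain ⟨K, hK⟩ := h
  refine ⟨K, fun δ hδ => ?_⟩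
  obtain ⟨δ₁, hδ₁0, hδ₁⟩ : ∃ δ₁ : ℝ, 0 < δ₁ ∧ δ₁ * (32 * C + 32) = δ :=
    ⟨δ / (32 * C + 32), by positivity, by field_simp⟩
  obtain ⟨r₁, hr₁, h1⟩ := hK δ₁ hδ₁0
  have h2 : ∀ᶠ x in 𝓝 z, c x < r₁ / 16 :=
    hc.continuousAt.eventually (gt_mem_nhds (by rw [hcz]; positivity))
  obtain ⟨ρ, hρ, h3⟩ := Metric.eventually_nhds_iff_ball.1 h2
  obtain ⟨r, hr, hr1, hr2, hr3⟩ : ∃ r : ℝ, 0 < r ∧ r ≤ ρ ∧ r ≤ r₁ / 16 ∧ r ≤ 1 / 16 :=
    ⟨min (min ρ (r₁ / 16)) (1 / 16), by positivity, (min_le_left _ _).trans (min_le_left _ _),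
      (min_le_left _ _).trans (min_le_right _ _), min_le_right _ _⟩
  refine ⟨r, hr, fun x hx s hs hsr => ?_⟩
  have hcx : c x < r₁ / 16 := h3 x (by rw [mem_ball, dist_eq_norm]; linarith)
  have hcx1 : c x ≤ 1 / 32 := by
    have h4 := hcL z x
    rw [hcz, sub_zero, abs_of_nonneg (hc0 x)] at h4
    linarith
  obtain ⟨R, hR⟩ : ∃ R : ℝ, R = 4 * (s + c x) := ⟨_, rfl⟩
  have hcx0 := hc0 x
  have hR0 : 0 < R := by rw [hR]; linarith
  have hRr : R < r₁ := by rw [hR]; linarith
  have hxz : ‖x‖ ≤ 1 + 1 / 16 := by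
    have := norm_le_norm_add_norm_sub' x z
    linarith
  obtain ⟨T, hT, h4⟩ := h1 x (by linarith) R hR0 hRr
  have hT0 := norm_nonneg (T : E n →L[ℝ] E n)
  refine ⟨T, hT, fun y hy => ?_⟩
  have hyx : ‖y‖ ≤ 1 + 1 / 8 := by
    have := norm_le_norm_add_norm_sub' y x
    linarith
  rcases le_or_gt (c x) s with hcs | hcs
  · -- the scale is larger than the radius of the kernel
    have hcont : ∀ q : E n, ‖q‖ ≤ 3 / 2 → ContinuousOn (fun s : E n => G (q + c q • s))
        (closedBall 0 1) := by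
      intro q hq
      refine hG.comp (by fun_prop) ?_
      intro σ hσ
      rw [mem_closedBall_zero_iff] at hσ ⊢
      refine (norm_add_le _ _).trans ?_
      rw [norm_smul, Real.norm_of_nonneg (hc0 q)]
      have h5 : c q * ‖σ‖ ≤ 1 / 4 * 1 := mul_le_mul (hc4 q) hσ (norm_nonneg _) (by norm_num)
      linarith
    have key : ∀ q : E n, ‖q‖ ≤ 3 / 2 → ‖q - x‖ ≤ s →
        ‖Moll n G c q - G x - T (q - x)‖ ≤ δ₁ * ‖(T : E n →L[ℝ] E n)‖ * R := by
      intro q hq hqx
      have e1 := moll_sub_affine n G (T : E n →L[ℝ] E n) (G x) x q (c q) (hcont q hq)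
      have e2 : Moll n G c q - G x - T (q - x) =
          ∫ σ, kr n σ • (G (q + c q • σ) - G x - (T : E n →L[ℝ] E n) (q + c q • σ - x)) := by
        rw [e1]
        rfl
      rw [e2]
      have hcnt : ContinuousOn (fun σ : E n => G (q + c q • σ) - G x -
          (T : E n →L[ℝ] E n) (q + c q • σ - x)) (closedBall 0 1) := by
        refine ((hcont q hq).sub continuousOn_const).sub ?_
        exact ((T : E n →L[ℝ] E n).continuous.comp (by fun_prop)).continuousOn
      have h5 := norm_mean_sub_le (f := fun σ : E n => G (q + c q • σ) - G x -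
        (T : E n →L[ℝ] E n) (q + c q • σ - x)) (w := 0)
        (e := δ₁ * ‖(T : E n →L[ℝ] E n)‖ * R) hcnt ?_
      · rw [sub_zero] at h5
        exact h5
      · intro σ hσ
        rw [sub_zero]
        refine h4 _ ?_
        have e3 : q + c q • σ - x = (q - x) + c q • σ := by abel
        rw [e3]
        refine (norm_add_le _ _).trans ?_
        rw [norm_smul, Real.norm_of_nonneg (hc0 q)]
        have h6 := hcL x q
        have h7 := (abs_le.1 h6).2
        have h8 : c q * ‖σ‖ ≤ (c x + s) * 1 :=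
          mul_le_mul (by linarith) hσ (norm_nonneg _) (by linarith)
        rw [hR]
        linarith
    have k1 := key y (by linarith) hy
    have k2 := key x (by linarith) (by rw [sub_self, norm_zero]; exact hs.le)
    rw [sub_self, map_zero, sub_zero] at k2
    have e : Moll n G c y - Moll n G c x - T (y - x) =
        (Moll n G c y - G x - T (y - x)) - (Moll n G c x - G x) := by abel
    rw [e]
    refine (norm_sub_le _ _).trans ?_
    have h5 : R ≤ 8 * s := by rw [hR]; linarith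
    have h6 : δ₁ * ‖(T : E n →L[ℝ] E n)‖ * R ≤ δ₁ * ‖(T : E n →L[ℝ] E n)‖ * (8 * s) :=
      mul_le_mul_of_nonneg_left h5 (by positivity)
    have h7 : δ₁ * 16 ≤ δ := by rw [← hδ₁]; nlinarith
    calc _ ≤ δ₁ * ‖(T : E n →L[ℝ] E n)‖ * (8 * s) + δ₁ * ‖(T : E n →L[ℝ] E n)‖ * (8 * s) :=
          add_le_add (k1.trans h6) (k2.trans h6)
      _ = (δ₁ * 16) * ‖(T : E n →L[ℝ] E n)‖ * s := by ring
      _ ≤ δ * ‖(T : E n →L[ℝ] E n)‖ * s :=
          mul_le_mul_of_nonneg_right (mul_le_mul_of_nonneg_right h7 hT0) hs.le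
  · -- the scale is smaller than the radius of the kernel
    have hcq : ∀ q : E n, ‖q - x‖ ≤ s → c x / 2 ≤ c q ∧ c q ≤ 2 * c x := by
      intro q hq
      have h6 := abs_le.1 (hcL x q)
      constructor
      · linarith [h6.1]
      · linarith [h6.2]
    have hfd : ∀ q ∈ closedBall x s,
        ‖fderiv ℝ (Moll n G c) q - (T : E n →L[ℝ] E n)‖ ≤
          32 * C * δ₁ * ‖(T : E n →L[ℝ] E n)‖ := by
      intro q hq
      rw [mem_closedBall, dist_eq_norm] at hq
      obtain ⟨h6, h7⟩ := hcq q hq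
      have hcq0 : 0 < c q := by linarith
      have hq1 : ‖q‖ ≤ 1 := by
        by_contra hcon
        push Not at hcon
        rw [hc1 q hcon] at hcq0
        exact lt_irrefl _ hcq0
      have hη : ∀ w, ‖w - q‖ ≤ 2 * c q →
          ‖G w - G q - (T : E n →L[ℝ] E n) (w - q)‖ ≤ 2 * (δ₁ * ‖(T : E n →L[ℝ] E n)‖ * R) := by
        intro w hw
        have h8 : ‖w - x‖ ≤ R := by
          have e : w - x = (w - q) + (q - x) := by abel
          rw [e]
          refine (norm_add_le _ _).trans ?_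
          rw [hR]
          linarith
        have h9 := h4 w h8
        have h10 := h4 q (by rw [hR]; linarith)
        have e : G w - G q - (T : E n →L[ℝ] E n) (w - q) =
            (G w - G x - T (w - x)) - (G q - G x - T (q - x)) := by
          have e1 : w - q = (w - x) - (q - x) := by abel
          rw [e1, map_sub]
          simp only [ContinuousLinearEquiv.coe_coe]
          abel
        rw [e]
        refine (norm_sub_le _ _).trans ?_
        linarith
      have h8 := hder G c q (T : E n →L[ℝ] E n) (2 * (δ₁ * ‖(T : E n →L[ℝ] E n)‖ * R)) hG hq1 hcq0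
        (hc4 q) (fun y => hcL q y) (hd q hcq0) (by positivity) hη
      refine h8.trans ?_
      have h9 : R ≤ 16 * c q := by rw [hR]; linarith
      have h10 : 2 * (δ₁ * ‖(T : E n →L[ℝ] E n)‖ * R) / c q ≤
          32 * (δ₁ * ‖(T : E n →L[ℝ] E n)‖) := by
        rw [div_le_iff₀ hcq0]
        have h11 : δ₁ * ‖(T : E n →L[ℝ] E n)‖ * R ≤ δ₁ * ‖(T : E n →L[ℝ] E n)‖ * (16 * c q) :=
          mul_le_mul_of_nonneg_left h9 (by positivity)
        linarith
      calc _ ≤ C * (32 * (δ₁ * ‖(T : E n →L[ℝ] E n)‖)) := mul_le_mul_of_nonneg_left h10 hC.le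
        _ = _ := by ring
    have hdf : ∀ q ∈ closedBall x s,
        HasFDerivWithinAt (Moll n G c) (fderiv ℝ (Moll n G c) q) (closedBall x s) q := by
      intro q hq
      rw [mem_closedBall, dist_eq_norm] at hq
      exact (hd q (by have := (hcq q hq).1; linarith)).hasFDerivAt.hasFDerivWithinAt
    have h5 := (convex_closedBall x s).norm_image_sub_le_of_norm_hasFDerivWithin_le' hdf hfd
      (mem_closedBall_self hs.le) (show y ∈ closedBall x s by
        rw [mem_closedBall, dist_eq_norm]; exact hy)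
    have h6 : 32 * C * δ₁ ≤ δ := by rw [← hδ₁]; nlinarith
    calc ‖Moll n G c y - Moll n G c x - T (y - x)‖ ≤
          32 * C * δ₁ * ‖(T : E n →L[ℝ] E n)‖ * ‖y - x‖ := h5
      _ ≤ 32 * C * δ₁ * ‖(T : E n →L[ℝ] E n)‖ * s :=
          mul_le_mul_of_nonneg_left hy (by positivity)
      _ ≤ δ * ‖(T : E n →L[ℝ] E n)‖ * s :=
          mul_le_mul_of_nonneg_right (mul_le_mul_of_nonneg_right h6 hT0) hs.le

/-- one step of the smoothing -/
theorem alstep (n : ℕ) (X : Type) [TopologicalSpace X] [T2Space X] [ChartedSpace (E n) X]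
    [IsManifold (𝓡 n) ∞ X] (F : X → E n) (W : Set X) (A : E n → X) (e : ℝ) (hW : IsOpen W)
    (hF : ContinuousOn F W) (hAi : InjOn A (closedBall 0 2))
    (hAd : ∀ z ∈ closedBall (0 : E n) 2, LD n A z) (hAW : ∀ z ∈ closedBall (0 : E n) 2, A z ∈ W)
    (hx : ∀ x ∈ W, ALE n F x) (he : 0 < e) :
    ∃ F' : X → E n, ContinuousOn F' W ∧ (∀ p, p ∉ A '' closedBall 0 1 → F' p = F p) ∧
      (∀ p, ‖F' p - F p‖ ≤ e) ∧ (∀ p, LD n F p → LD n F' p) ∧
      (∀ z, ‖z‖ ≤ 1 / 2 → LD n F' (A z)) ∧ ∀ x ∈ W, ALE n F' x := by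
  -- the map in the chart
  obtain ⟨G, hGd⟩ : ∃ G : E n → E n, G = fun z => F (A z) := ⟨_, rfl⟩
  have hG : ContinuousOn G (closedBall 0 2) := by
    intro z hz
    rw [hGd]
    exact ((hF.continuousAt (hW.mem_nhds (hAW z hz))).comp
      (hAd z hz).continuousAt).continuousWithinAt
  have hGAL : ∀ z ∈ closedBall (0 : E n) 2, AL n G z := by
    intro z hz
    rw [hGd]
    exact (hx _ (hAW z hz)).box (hAd z hz) rfl
  obtain ⟨δ, hδ, hGu⟩ : ∃ δ : ℝ, 0 < δ ∧ ∀ x ∈ closedBall (0 : E n) 2, ∀ y ∈ closedBall (0 : E n) 2,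
      ‖x - y‖ < δ → ‖G x - G y‖ < e := by
    have h1 := (isCompact_closedBall (0 : E n) 2).uniformContinuousOn_of_continuous hG
    obtain ⟨δ, hδ, h2⟩ := Metric.uniformContinuousOn_iff.1 h1 e he
    refine ⟨δ, hδ, fun x hx y hy hxy => ?_⟩
    have := h2 x hx y hy (by rwa [dist_eq_norm])
    rwa [dist_eq_norm] at this
  obtain ⟨C, hC, hder⟩ := fderiv_moll n
  obtain ⟨r₀, hr₀, hclo⟩ : ∃ r₀ : ℝ, 0 < r₀ ∧ ∀ z ∈ closedBall (0 : E n) 1, ∀ s, 0 < s → s < r₀ →
      Clo n C G z s := by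
    refine (isCompact_closedBall (0 : E n) 1).induction_on
      (p := fun S => ∃ r₀ : ℝ, 0 < r₀ ∧ ∀ z ∈ S, ∀ s, 0 < s → s < r₀ → Clo n C G z s) ?_ ?_ ?_ ?_
    · exact ⟨1, one_pos, fun z hz => absurd hz (notMem_empty z)⟩
    · rintro S S' hSS ⟨r, hr, h⟩
      exact ⟨r, hr, fun z hz => h z (hSS hz)⟩
    · rintro S S' ⟨r, hr, h⟩ ⟨r', hr', h'⟩
      refine ⟨min r r', lt_min hr hr', fun z hz s hs hsr => ?_⟩
      rcases hz with hz | hz
      · exact h z hz s hs (hsr.trans_le (min_le_left _ _))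
      · exact h' z hz s hs (hsr.trans_le (min_le_right _ _))
    · intro z hz
      obtain ⟨r, hr, h⟩ := clo_of_AL hC (hGAL z (closedBall_subset_closedBall (by norm_num) hz))
      refine ⟨ball z r, mem_nhdsWithin_of_mem_nhds (ball_mem_nhds z hr), r, hr, fun x hx => ?_⟩
      rw [mem_ball, dist_eq_norm] at hx
      exact h x hx
  -- the bump function
  obtain ⟨χ, hχ⟩ : ∃ χ : E n → ℝ, χ = fun z => bmp n z := ⟨_, rfl⟩
  have hχs : ContDiff ℝ ∞ χ := by
    rw [hχ]
    exact (bmp n).contDiff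
  have hχ0 : ∀ z, 0 ≤ χ z := by
    intro z
    rw [hχ]
    exact (bmp n).nonneg
  have hχ1 : ∀ z, χ z ≤ 1 := by
    intro z
    rw [hχ]
    exact (bmp n).le_one
  have hχz : ∀ z, 1 ≤ ‖z‖ → χ z = 0 := by
    intro z hz
    rw [hχ]
    exact (bmp n).zero_of_le_dist (by rw [dist_zero_right]; exact hz)
  have hχp : ∀ z, ‖z‖ < 1 → 0 < χ z := by
    intro z hz
    rw [hχ]
    exact (bmp n).pos_of_mem_ball (by rw [mem_ball_zero_iff]; exact hz)
  obtain ⟨K, hK⟩ : ∃ K : NNReal, LipschitzWith K χ := by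
    refine hχs.lipschitzWith_of_hasCompactSupport ?_ (by simp)
    rw [hχ]
    exact (bmp n).hasCompactSupport
  have hKp : (0 : ℝ) < K + 1 := by
    have := K.coe_nonneg
    linarith
  obtain ⟨ε, hεpos, hε4, hεK, hεj, hεδ⟩ : ∃ ε : ℝ, 0 < ε ∧ ε ≤ 1 / 4 ∧ ε * K ≤ 1 / 2 ∧
      ε < r₀ / 2 ∧ ε < δ := by
    refine ⟨min (min (1 / 4) (1 / 2 / (K + 1))) (min (r₀ / 4) (δ / 2)), by positivity,
      (min_le_left _ _).trans (min_le_left _ _), ?_, ?_, ?_⟩
    · have h1 : min (min (1 / 4) (1 / 2 / ((K : ℝ) + 1))) (min (r₀ / 4) (δ / 2)) ≤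
          1 / 2 / (K + 1) := (min_le_left _ _).trans (min_le_right _ _)
      calc min (min (1 / 4) (1 / 2 / ((K : ℝ) + 1))) (min (r₀ / 4) (δ / 2)) * (K : ℝ)
          ≤ 1 / 2 / (K + 1) * K := mul_le_mul_of_nonneg_right h1 K.coe_nonneg
        _ ≤ 1 / 2 / (K + 1) * (K + 1) := by
            apply mul_le_mul_of_nonneg_left (by linarith)
            positivity
        _ = 1 / 2 := div_mul_cancel₀ _ hKp.ne'
    · refine lt_of_le_of_lt ((min_le_right _ _).trans (min_le_left _ _)) ?_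
      linarith
    · refine lt_of_le_of_lt ((min_le_right _ _).trans (min_le_right _ _)) ?_
      linarith
  obtain ⟨c, hc⟩ : ∃ c : E n → ℝ, c = fun z => ε * χ z := ⟨_, rfl⟩
  have hcs : ContDiff ℝ ∞ c := by
    rw [hc]
    exact contDiff_const.mul hχs
  have hc0 : ∀ z, 0 ≤ c z := by
    intro z
    rw [hc]
    exact mul_nonneg hεpos.le (hχ0 z)
  have hcε : ∀ z, c z ≤ ε := by
    intro z
    rw [hc]
    change ε * χ z ≤ ε
    have := mul_le_mul_of_nonneg_left (hχ1 z) hεpos.le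
    linarith
  have hc4 : ∀ z, c z ≤ 1 / 4 := fun z => (hcε z).trans hε4
  have hcz : ∀ z, 1 ≤ ‖z‖ → c z = 0 := by
    intro z hz
    rw [hc]
    change ε * χ z = 0
    rw [hχz z hz, mul_zero]
  have hc1 : ∀ z, 1 < ‖z‖ → c z = 0 := fun z hz => hcz z hz.le
  have hcp : ∀ z, ‖z‖ < 1 → 0 < c z := by
    intro z hz
    rw [hc]
    exact mul_pos hεpos (hχp z hz)
  have hcL : ∀ z y, |c y - c z| ≤ ‖y - z‖ / 2 := by
    intro z y
    rw [hc]
    change |ε * χ y - ε * χ z| ≤ _
    rw [← mul_sub, abs_mul, abs_of_pos hεpos]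
    have h1 : |χ y - χ z| ≤ K * ‖y - z‖ := by
      have h2 := hK.dist_le_mul y z
      rwa [Real.dist_eq, dist_eq_norm] at h2
    calc ε * |χ y - χ z| ≤ ε * (K * ‖y - z‖) := mul_le_mul_of_nonneg_left h1 hεpos.le
      _ = (ε * K) * ‖y - z‖ := by ring
      _ ≤ 1 / 2 * ‖y - z‖ := mul_le_mul_of_nonneg_right hεK (norm_nonneg _)
      _ = ‖y - z‖ / 2 := by ring
  obtain ⟨hS1, hS2, hS3, hS4⟩ := Pool.Agent.Y954.SH.mollS n G c hG hcs hc0 hc4 hc1
  have hin : ∀ z : E n, ‖z‖ ≤ 1 → ∀ s : E n, ‖s‖ ≤ 1 → ‖z + c z • s‖ ≤ 3 / 2 := by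
    intro z hz s hs
    calc ‖z + c z • s‖ ≤ ‖z‖ + ‖c z • s‖ := norm_add_le _ _
      _ = ‖z‖ + c z * ‖s‖ := by rw [norm_smul, Real.norm_of_nonneg (hc0 z)]
      _ ≤ 1 + 1 / 4 * 1 := by
          apply add_le_add hz
          exact mul_le_mul (hc4 z) hs (norm_nonneg _) (by norm_num)
      _ ≤ 3 / 2 := by norm_num
  have hcz1 : ∀ z, 0 < c z → ‖z‖ ≤ 1 := by
    intro z hz
    by_contra hcon
    push Not at hcon
    rw [hc1 z hcon] at hz
    exact lt_irrefl _ hz
  have hdiff : ∀ z, 0 < c z → DifferentiableAt ℝ (Moll n G c) z := fun z hz =>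
    (hS3 z hz).differentiableAt (by simp)
  have hpos : ∀ z, 0 < c z → LD n (Moll n G c) z := by
    intro z hz
    have hz1 := hcz1 z hz
    obtain ⟨T, η, hη0, hη, hT⟩ := hclo z (by rw [mem_closedBall_zero_iff]; exact hz1) (2 * c z)
      (by linarith) (by have := hcε z; linarith)
    have h1 := hder G c z (T : E n →L[ℝ] E n) (η * (2 * c z)) hG hz1 hz (hc4 z)
      (fun y => hcL z y) (hdiff z hz) (by positivity) hT
    have h2 : η * (2 * c z) / c z = 2 * η := by field_simp
    rw [h2] at h1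
    have hinj : Injective (fderiv ℝ (Moll n G c) z) := by
      rw [injective_iff_map_eq_zero]
      intro v hv
      have h3 : ‖T v‖ ≤ C * (2 * η) * ‖v‖ := by
        have h4 : T v = -((fderiv ℝ (Moll n G c) z - (T : E n →L[ℝ] E n)) v) := by
          rw [ContinuousLinearMap.sub_apply, hv]
          simp
        rw [h4, norm_neg]
        exact (ContinuousLinearMap.le_opNorm _ v).trans
          (mul_le_mul_of_nonneg_right h1 (norm_nonneg _))
      have h5 : ‖v‖ ≤ ‖(T.symm : E n →L[ℝ] E n)‖ * ‖T v‖ := by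
        have h6 : v = (T.symm : E n →L[ℝ] E n) (T v) := by simp
        conv_lhs => rw [h6]
        exact ContinuousLinearMap.le_opNorm _ _
      by_contra hv0
      have hv1 : 0 < ‖v‖ := norm_pos_iff.2 hv0
      have h7 : ‖(T.symm : E n →L[ℝ] E n)‖ * ‖T v‖ ≤
          ‖(T.symm : E n →L[ℝ] E n)‖ * (C * (2 * η) * ‖v‖) :=
        mul_le_mul_of_nonneg_left h3 (norm_nonneg _)
      have h8 : ‖(T.symm : E n →L[ℝ] E n)‖ * (C * (2 * η) * ‖v‖) =
          (2 * C * η * ‖(T.symm : E n →L[ℝ] E n)‖) * ‖v‖ := by ring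
      have h9 : (2 * C * η * ‖(T.symm : E n →L[ℝ] E n)‖) * ‖v‖ < 1 * ‖v‖ :=
        mul_lt_mul_of_pos_right hη hv1
      linarith
    refine LD_of_bij ?_ ⟨hinj, ?_⟩
    · have h3 : ∀ᶠ y in 𝓝 z, 0 < c y :=
        hcs.continuous.continuousAt.eventually (lt_mem_nhds hz)
      filter_upwards [h3] with y hy
      exact hS3 y hy
    · exact (LinearMap.injective_iff_surjective (f := (fderiv ℝ (Moll n G c) z).toLinearMap)).1 hinj
  -- the new map
  have hMF : ∀ z : E n, ‖z‖ ≤ 2 → MF A c F (A z) = Moll n G c z := by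
    intro z hz
    rw [hGd]
    exact MF_of hAi hc1 hz
  have hcl : IsClosed (A '' closedBall (0 : E n) 1) := by
    apply IsCompact.isClosed
    apply (isCompact_closedBall (0 : E n) 1).image_of_continuousOn
    intro z hz
    exact (hAd z (closedBall_subset_closedBall (by norm_num) hz)).continuousAt.continuousWithinAt
  have hloc : ∀ z : E n, ‖z‖ ≤ 1 → ∃ p : X → E n, LD n p (A z) ∧ p (A z) = z ∧
      MF A c F =ᶠ[𝓝 (A z)] fun w => Moll n G c (p w) := by
    intro z hz
    obtain ⟨p, hp1, hp2, hp3, hp4⟩ :=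
      (hAd z (by rw [mem_closedBall_zero_iff]; linarith)).exists_inverse
    refine ⟨p, hp1, hp2, ?_⟩
    have h1 : ∀ᶠ w in 𝓝 (A z), ‖p w‖ < 2 := by
      refine hp1.continuousAt.norm.eventually (p := fun r : ℝ => r < 2) ?_
      change ∀ᶠ y in 𝓝 ‖p (A z)‖, y < 2
      rw [hp2]
      exact gt_mem_nhds (by linarith)
    filter_upwards [h1, hp4] with w hw1 hw2
    rw [← hMF (p w) hw1.le, hw2]
  have hoff : ∀ x, x ∉ A '' closedBall (0 : E n) 1 → MF A c F =ᶠ[𝓝 x] F := by
    intro x hx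
    filter_upwards [hcl.isOpen_compl.mem_nhds hx] with y hy
    exact MF_off hy
  have hLD : ∀ z : E n, ‖z‖ ≤ 1 → LD n (Moll n G c) z → LD n (MF A c F) (A z) := by
    intro z hz h
    obtain ⟨p, hp1, hp2, hp3⟩ := hloc z hz
    refine LD.congr ?_ hp3
    refine LD.comp_fun ?_ hp1
    rw [hp2]
    exact h
  refine ⟨MF A c F, ?_, ?_, ?_, ?_, ?_, ?_⟩
  · -- continuity
    intro x hxW
    refine ContinuousAt.continuousWithinAt ?_
    by_cases hx : x ∈ A '' closedBall (0 : E n) 1
    · obtain ⟨z, hz, rfl⟩ := hx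
      rw [mem_closedBall_zero_iff] at hz
      obtain ⟨p, hp1, hp2, hp3⟩ := hloc z hz
      rw [continuousAt_congr hp3]
      have h1 : ContinuousAt (Moll n G c) (p (A z)) := by
        rw [hp2]
        apply hS1.continuousAt
        refine mem_of_superset (ball_mem_nhds z (ε := 1 / 2) (by norm_num)) ?_
        intro y hy
        rw [mem_ball, dist_eq_norm] at hy
        rw [mem_closedBall_zero_iff]
        have h2 := norm_le_norm_add_norm_sub' y z
        linarith
      exact h1.comp hp1.continuousAt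
    · rw [continuousAt_congr (hoff x hx)]
      exact hF.continuousAt (hW.mem_nhds hxW)
  · intro p hp
    exact MF_off hp
  · intro x
    by_cases hx : x ∈ A '' closedBall (0 : E n) 1
    · obtain ⟨z, hz, rfl⟩ := hx
      rw [mem_closedBall_zero_iff] at hz
      rw [hMF z (by linarith)]
      unfold Moll
      have hFG : F (A z) = G z := by rw [hGd]
      rw [hFG]
      apply norm_mean_sub_le
      · refine hG.comp (by fun_prop) ?_
        intro s hs
        rw [mem_closedBall_zero_iff] at hs ⊢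
        exact (hin z hz s hs).trans (by norm_num)
      · intro s hs
        refine (hGu _ ?_ _ ?_ ?_).le
        · rw [mem_closedBall_zero_iff]
          exact (hin z hz s hs).trans (by norm_num)
        · rw [mem_closedBall_zero_iff]
          linarith
        · rw [add_sub_cancel_left, norm_smul, Real.norm_of_nonneg (hc0 z)]
          calc c z * ‖s‖ ≤ ε * 1 := mul_le_mul (hcε z) hs (norm_nonneg _) hεpos.le
            _ < δ := by linarith
    · rw [MF_off hx, sub_self, norm_zero]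
      exact he.le
  · intro x hx
    by_cases hxA : x ∈ A '' closedBall (0 : E n) 1
    · obtain ⟨z, hz, rfl⟩ := hxA
      rw [mem_closedBall_zero_iff] at hz
      apply hLD z hz
      rcases (hc0 z).lt_or_eq with h | h
      · exact hpos z h
      · have hGz : LD n G z := by
          rw [hGd]
          exact LD.comp_fun hx (hAd z (by rw [mem_closedBall_zero_iff]; linarith))
        have hev : ∀ᶠ y in 𝓝 z, ContDiffAt ℝ ∞ G y := by
          filter_upwards [hGz.eventually] with y hy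
          exact hy.contDiffAt
        obtain ⟨h1, h2⟩ := hS4 z hz h.symm hev
        obtain ⟨e, he⟩ := hGz.exists_equiv
        refine LD_of_contDiffAt ?_ e ?_
        · filter_upwards [eventually_eventually_nhds.2 hev] with y hy
          rcases (hc0 y).lt_or_eq with h3 | h3
          · exact hS3 y h3
          · rcases le_or_gt ‖y‖ 1 with h4 | h4
            · exact (hS4 y h4 h3.symm hy).1
            · refine hy.self_of_nhds.congr_of_eventuallyEq ?_
              have h5 : ∀ᶠ w in 𝓝 y, 1 < ‖w‖ := continuous_norm.continuousAt.eventually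
                (lt_mem_nhds h4)
              filter_upwards [h5] with w hw
              exact hS2 w (hc1 w hw)
        · rw [← he.fderiv, ← h2]
          exact (h1.differentiableAt (by simp)).hasFDerivAt
    · exact LD.congr hx (hoff x hxA)
  · intro z hz
    exact hLD z (by linarith) (hpos z (hcp z (by linarith)))
  · intro x hxW
    by_cases hxA : x ∈ A '' closedBall (0 : E n) 1
    · obtain ⟨z, hz, rfl⟩ := hxA
      have hz2 : z ∈ closedBall (0 : E n) 2 := closedBall_subset_closedBall (by norm_num) hz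
      rw [mem_closedBall_zero_iff] at hz
      rcases (hc0 z).lt_or_eq with h | h
      · exact ALE_of_LD (hLD z hz (hpos z h))
      · have h1 := AL_moll n G c z hG hz hcs.continuous hc0 hc4 hc1 hcL h.symm hdiff (hGAL z hz2)
        refine ⟨fun w => A (w + z), by simp, ?_, ?_⟩
        · have h2 : LD n (fun p : E n => p + z) 0 := LD_add_const z 0
          refine LD.comp_fun ?_ h2
          simpa using hAd z hz2
        · have h2 : LD n (fun p : E n => p + z) 0 := LD_add_const z 0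
          have h3 : AL n (fun w => Moll n G c ((fun p : E n => p + z) w)) 0 := by
            refine AL.comp_right (G := Moll n G c) (τ := fun p : E n => p + z) ?_ h2
            simpa using h1
          refine ALcongr h3 ?_
          filter_upwards [ball_mem_nhds (0 : E n) one_pos] with w hw
          rw [mem_ball_zero_iff] at hw
          show MF A c F (A (w + z)) = Moll n G c (w + z)
          exact hMF _ ((norm_add_le _ _).trans (by linarith))
    · exact (hx x hxW).congr (hoff x hxA)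

end Pool.Agent.Q130.AL
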